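import Pool.Agent.MP_693ed2_an.FTP.Defs

/-!
# FTP row B1: division of a bounded holomorphic function on the half-plane by a Blaschke factor

Proof.  Let `c z = (a + conj a * z) / (1 - z)` for `z` in the unit disc (`1 - z ≠ 0`); then
`Re (c z) = Re a (1 - ‖z‖²) / ‖1 - z‖² > 0`, so `c z ∈ RH`, `c 0 = a`, and for `t ∈ RH`, with
`z = (t - a) / (t + conj a)` (`t + conj a ≠ 0` since its real part is positive), `‖z‖ < 1` and `c z = t`
(`‖t - a‖² = ‖t + conj a‖² - 4 Re t Re a`).  Put `G z = u (c z)`, differentiable on `ball 0 1`, with values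
in `closedBall 0 M`, `G 0 = u a = 0`.  `Complex.norm_dslope_le_div_of_mapsTo_ball` (with `f = G`, `c = 0`,
`R₁ = 1`, `R₂ = M`) gives `‖dslope G 0 z‖ ≤ M` on the disc.  Put `u₁ t = dslope G 0 ((t - a)/(t + conj a))`.
`dslope G 0` is differentiable on `ball 0 1` (`(differentiableOn_dslope _).2`), so `u₁` is differentiable on
`RH`, and `u t = G z = z * dslope G 0 z` (`sub_smul_dslope`).
-/

namespace FTP

open Metric Set Filter Topology

theorem B1 {M : ℝ} {u : ℂ → ℂ} (hd : DifferentiableOn ℂ u RH) (hb : ∀ t ∈ RH, ‖u t‖ ≤ M) {a : ℂ}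
    (ha : a ∈ RH) (hu : u a = 0) :
    ∃ u₁ : ℂ → ℂ, DifferentiableOn ℂ u₁ RH ∧ (∀ t ∈ RH, ‖u₁ t‖ ≤ M) ∧
      ∀ t ∈ RH, u t = (t - a) / (t + (starRingEnd ℂ) a) * u₁ t := by
  have hare : 0 < a.re := ha
  -- the point `0`
  have hM : 0 ≤ M := le_trans (norm_nonneg _) (hb a ha)
  set c : ℂ → ℂ := fun z => (a + (starRingEnd ℂ) a * z) / (1 - z) with hc
  have hne1 : ∀ z ∈ ball (0 : ℂ) 1, (1 : ℂ) - z ≠ 0 := by
    intro z hz h0
    have : z = 1 := by
      have := sub_eq_zero.1 h0
      exact this.symm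
    rw [mem_ball_zero_iff, this] at hz
    simp at hz
  have hnsq : ∀ z ∈ ball (0 : ℂ) 1, z.re * z.re + z.im * z.im < 1 := by
    intro z hz
    rw [mem_ball_zero_iff] at hz
    have h1 : ‖z‖ ^ 2 < 1 := by
      have := norm_nonneg z
      nlinarith
    rw [← Complex.normSq_eq_norm_sq, Complex.normSq_apply] at h1
    exact h1
  have hcRH : ∀ z ∈ ball (0 : ℂ) 1, c z ∈ RH := by
    intro z hz
    have hn := hne1 z hz
    have hq := hnsq z hz
    have hpos : 0 < Complex.normSq (1 - z) := Complex.normSq_pos.2 hn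
    show 0 < ((a + (starRingEnd ℂ) a * z) / (1 - z)).re
    rw [Complex.div_re]
    have e1 : (a + (starRingEnd ℂ) a * z).re * (1 - z).re / Complex.normSq (1 - z) +
        (a + (starRingEnd ℂ) a * z).im * (1 - z).im / Complex.normSq (1 - z) =
        (a.re * (1 - (z.re * z.re + z.im * z.im))) / Complex.normSq (1 - z) := by
      rw [← add_div]
      congr 1
      simp only [Complex.add_re, Complex.mul_re, Complex.conj_re, Complex.conj_im, Complex.sub_re,
        Complex.one_re, Complex.add_im, Complex.mul_im, Complex.sub_im, Complex.one_im]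
      ring
    rw [e1]
    exact div_pos (mul_pos hare (by linarith)) hpos
  have hcd : DifferentiableOn ℂ c (ball (0 : ℂ) 1) := by
    intro z hz
    have hn := hne1 z hz
    apply DifferentiableAt.differentiableWithinAt
    exact DifferentiableAt.div (by fun_prop) (by fun_prop) hn
  have hc0 : c 0 = a := by simp [hc]
  set G : ℂ → ℂ := fun z => u (c z) with hG
  have hGd : DifferentiableOn ℂ G (ball (0 : ℂ) 1) :=
    hd.comp hcd (fun z hz => hcRH z hz)
  have hG0 : G 0 = 0 := by
    simp only [hG, hc0, hu]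
  have hGm : MapsTo G (ball (0 : ℂ) 1) (closedBall (G 0) M) := by
    intro z hz
    rw [hG0, mem_closedBall_zero_iff]
    exact hb _ (hcRH z hz)
  have hds : ∀ z ∈ ball (0 : ℂ) 1, ‖dslope G 0 z‖ ≤ M := by
    intro z hz
    have := Complex.norm_dslope_le_div_of_mapsTo_ball hGd hGm hz
    simpa using this
  have hdd : DifferentiableOn ℂ (dslope G 0) (ball (0 : ℂ) 1) :=
    (Complex.differentiableOn_dslope (isOpen_ball.mem_nhds (mem_ball_self one_pos))).2 hGd
  -- the inverse map
  have hden : ∀ t ∈ RH, t + (starRingEnd ℂ) a ≠ 0 := by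
    intro t ht h0
    have ht' : 0 < t.re := ht
    have h1 := congrArg Complex.re h0
    simp only [Complex.add_re, Complex.conj_re, Complex.zero_re] at h1
    linarith
  have hzb : ∀ t ∈ RH, (t - a) / (t + (starRingEnd ℂ) a) ∈ ball (0 : ℂ) 1 := by
    intro t ht
    have ht' : 0 < t.re := ht
    have hn := hden t ht
    rw [mem_ball_zero_iff, norm_div, div_lt_one (norm_pos_iff.2 hn)]
    have h2 : ‖t - a‖ ^ 2 < ‖t + (starRingEnd ℂ) a‖ ^ 2 := by
      rw [← Complex.normSq_eq_norm_sq, ← Complex.normSq_eq_norm_sq, Complex.normSq_apply,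
        Complex.normSq_apply]
      simp only [Complex.sub_re, Complex.sub_im, Complex.add_re, Complex.add_im, Complex.conj_re,
        Complex.conj_im]
      have := mul_pos ht' hare
      nlinarith
    exact lt_of_pow_lt_pow_left₀ 2 (norm_nonneg _) h2
  have hcz : ∀ t ∈ RH, c ((t - a) / (t + (starRingEnd ℂ) a)) = t := by
    intro t ht
    have hn := hden t ht
    have hz1 := hne1 _ (hzb t ht)
    show (a + (starRingEnd ℂ) a * ((t - a) / (t + (starRingEnd ℂ) a))) /
      (1 - (t - a) / (t + (starRingEnd ℂ) a)) = t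
    rw [div_eq_iff hz1]
    field_simp
    ring
  refine ⟨fun t => dslope G 0 ((t - a) / (t + (starRingEnd ℂ) a)), ?_, ?_, ?_⟩
  · refine hdd.comp ?_ (fun t ht => hzb t ht)
    intro t ht
    have hn := hden t ht
    apply DifferentiableAt.differentiableWithinAt
    exact DifferentiableAt.div (by fun_prop) (by fun_prop) hn
  · intro t ht
    exact hds _ (hzb t ht)
  · intro t ht
    have h1 := sub_smul_dslope G 0 ((t - a) / (t + (starRingEnd ℂ) a))
    rw [sub_zero, hG0, sub_zero, smul_eq_mul] at h1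
    show u t = (t - a) / (t + (starRingEnd ℂ) a) *
      dslope G 0 ((t - a) / (t + (starRingEnd ℂ) a))
    rw [h1]
    show u t = u (c ((t - a) / (t + (starRingEnd ℂ) a)))
    rw [hcz t ht]

end FTP
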