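import Pool.Agent.MP_693ed2_an.FTP.B1

/-!
# FTP row B2: bounded holomorphic functions on the half-plane vanishing at `a + k`, `k = 0, 1, 2, ...`
-/

namespace FTP

open Metric Set Filter Topology

private theorem b2_den {a t : ℂ} (ha : a ∈ RH) (ht : t ∈ RH) (k : ℕ) :
    t + ((starRingEnd ℂ) a + k) ≠ 0 := by
  intro h
  have h1 := congrArg Complex.re h
  simp only [Complex.add_re, Complex.conj_re, Complex.natCast_re, Complex.zero_re] at h1
  have h2 : 0 < a.re := ha
  have h3 : 0 < t.re := ht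
  have h4 : (0 : ℝ) ≤ k := Nat.cast_nonneg k
  linarith

private theorem b2_factor {a t : ℂ} (ha : a ∈ RH) (ht : t ∈ RH) (k : ℕ) :
    ‖(t - (a + k)) / (t + ((starRingEnd ℂ) a + k))‖ ≤
      Real.exp (-((2 * t.re * min a.re 1 / (‖t‖ + ‖a‖ + 1) ^ 2) * (1 / ((k : ℝ) + 1)))) := by
  have hx : 0 < t.re := ht
  have hα : 0 < a.re := ha
  set L := ‖t‖ + ‖a‖ + 1 with hL
  have hL1 : 1 ≤ L := by have := norm_nonneg t; have := norm_nonneg a; linarith
  have hk : (0 : ℝ) ≤ k := Nat.cast_nonneg k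
  set m := min a.re 1 with hm
  have hm0 : 0 < m := lt_min hα one_pos
  have hm1 : m ≤ 1 := min_le_right _ _
  have hmα : m ≤ a.re := min_le_left _ _
  have hden := b2_den ha ht k
  have hD : 0 < ‖t + ((starRingEnd ℂ) a + k)‖ := norm_pos_iff.2 hden
  have hDle : ‖t + ((starRingEnd ℂ) a + k)‖ ≤ L * (k + 1) := by
    have h1 : ‖t + ((starRingEnd ℂ) a + k)‖ ≤ ‖t‖ + (‖a‖ + k) := by
      refine (norm_add_le _ _).trans (add_le_add le_rfl ?_)
      refine (norm_add_le _ _).trans ?_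
      rw [RCLike.norm_conj, Complex.norm_natCast]
    nlinarith [norm_nonneg t, norm_nonneg a]
  have hid : ‖t - (a + k)‖ ^ 2 = ‖t + ((starRingEnd ℂ) a + k)‖ ^ 2 - 4 * t.re * (a.re + k) := by
    rw [Complex.sq_norm, Complex.sq_norm, Complex.normSq_apply, Complex.normSq_apply]
    simp only [Complex.sub_re, Complex.sub_im, Complex.add_re, Complex.add_im, Complex.conj_re,
      Complex.conj_im, Complex.natCast_re, Complex.natCast_im]
    ring
  have hsq : ‖(t - (a + k)) / (t + ((starRingEnd ℂ) a + k))‖ ^ 2 ≤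
      (Real.exp (-((2 * t.re * m / L ^ 2) * (1 / ((k : ℝ) + 1))))) ^ 2 := by
    have e1 : (Real.exp (-((2 * t.re * m / L ^ 2) * (1 / ((k : ℝ) + 1))))) ^ 2 =
        Real.exp (-((4 * t.re * m / L ^ 2) * (1 / ((k : ℝ) + 1)))) := by
      rw [← Real.exp_nat_mul]; congr 1; push_cast; ring
    rw [e1, norm_div, div_pow, hid, sub_div, div_self (by positivity)]
    have h2 : (4 * t.re * m / L ^ 2) * (1 / ((k : ℝ) + 1)) ≤
        4 * t.re * (a.re + k) / ‖t + ((starRingEnd ℂ) a + k)‖ ^ 2 := by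
      have e2 : (4 * t.re * m / L ^ 2) * (1 / ((k : ℝ) + 1)) =
          4 * t.re * (m * (k + 1)) / (L * (k + 1)) ^ 2 := by
        field_simp
      rw [e2]
      apply div_le_div₀
      · positivity
      · apply mul_le_mul_of_nonneg_left _ (by positivity)
        nlinarith
      · positivity
      · exact pow_le_pow_left₀ hD.le hDle 2
    have h3 := Real.add_one_le_exp (-((4 * t.re * m / L ^ 2) * (1 / ((k : ℝ) + 1))))
    linarith
  exact (sq_le_sq₀ (norm_nonneg _) (Real.exp_pos _).le).1 hsq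

theorem B2a {a t : ℂ} (ha : a ∈ RH) (ht : t ∈ RH) :
    Tendsto (fun N : ℕ => ∏ k ∈ Finset.range N, ‖(t - (a + k)) / (t + ((starRingEnd ℂ) a + k))‖) atTop
      (𝓝 0) := by
  set c := 2 * t.re * min a.re 1 / (‖t‖ + ‖a‖ + 1) ^ 2 with hc
  have hx : 0 < t.re := ht
  have hα : 0 < a.re := ha
  have hc0 : 0 < c := by
    have : 0 < min a.re 1 := lt_min hα one_pos
    have := norm_nonneg t
    have := norm_nonneg a
    positivity
  have hle : ∀ N : ℕ, ∏ k ∈ Finset.range N, ‖(t - (a + k)) / (t + ((starRingEnd ℂ) a + k))‖ ≤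
      Real.exp (-(c * ∑ k ∈ Finset.range N, 1 / ((k : ℝ) + 1))) := by
    intro N
    rw [Finset.mul_sum, ← Finset.sum_neg_distrib, Real.exp_sum]
    exact Finset.prod_le_prod (fun _ _ => norm_nonneg _) (fun k _ => b2_factor ha ht k)
  have hlim : Tendsto (fun N : ℕ => Real.exp (-(c * ∑ k ∈ Finset.range N, 1 / ((k : ℝ) + 1)))) atTop
      (𝓝 0) := by
    apply Real.tendsto_exp_atBot.comp
    apply tendsto_neg_atTop_atBot.comp
    exact Real.tendsto_sum_range_one_div_nat_succ_atTop.const_mul_atTop hc0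
  exact squeeze_zero (fun N => Finset.prod_nonneg (fun _ _ => norm_nonneg _)) hle hlim

theorem B2b {M : ℝ} {u : ℂ → ℂ} (hd : DifferentiableOn ℂ u RH) (hb : ∀ t ∈ RH, ‖u t‖ ≤ M) {a : ℂ}
    (ha : a ∈ RH) (hu : ∀ k : ℕ, u (a + k) = 0) (N : ℕ) :
    ∃ v : ℂ → ℂ, DifferentiableOn ℂ v RH ∧ (∀ t ∈ RH, ‖v t‖ ≤ M) ∧
      ∀ t ∈ RH, u t = (∏ k ∈ Finset.range N, (t - (a + k)) / (t + ((starRingEnd ℂ) a + k))) * v t := by
  have hα : 0 < a.re := ha
  induction N with
  | zero => exact ⟨u, hd, hb, fun t _ => by simp⟩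
  | succ N ih =>
    obtain ⟨v, hv, hvb, hvu⟩ := ih
    have haN : a + (N : ℂ) ∈ RH := by
      show 0 < (a + (N : ℂ)).re
      rw [Complex.add_re, Complex.natCast_re]
      have : (0 : ℝ) ≤ N := Nat.cast_nonneg N
      linarith
    have hv0 : v (a + N) = 0 := by
      have h1 := hvu (a + N) haN
      rw [hu N] at h1
      have h2 : (∏ k ∈ Finset.range N,
          ((a + N) - (a + k)) / ((a + N) + ((starRingEnd ℂ) a + k)) : ℂ) ≠ 0 := by
        rw [Finset.prod_ne_zero_iff]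
        intro k hk
        apply div_ne_zero
        · have hkN : k < N := Finset.mem_range.1 hk
          intro h3
          have h4 : (N : ℂ) = k := by linear_combination h3
          have h5 : N = k := by exact_mod_cast h4
          omega
        · exact b2_den ha haN k
      rcases mul_eq_zero.1 h1.symm with h3 | h3
      · exact absurd h3 h2
      · exact h3
    obtain ⟨v₁, hd₁, hb₁, he₁⟩ := B1 hv hvb haN hv0
    refine ⟨v₁, hd₁, hb₁, fun t ht => ?_⟩
    rw [Finset.prod_range_succ, hvu t ht, he₁ t ht]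
    have h6 : (starRingEnd ℂ) (a + (N : ℂ)) = (starRingEnd ℂ) a + N := by
      rw [map_add, Complex.conj_natCast]
    rw [h6]
    ring

theorem B2 {M : ℝ} {u : ℂ → ℂ} (hd : DifferentiableOn ℂ u RH) (hb : ∀ t ∈ RH, ‖u t‖ ≤ M) {a : ℂ}
    (ha : a ∈ RH) (hu : ∀ k : ℕ, u (a + k) = 0) : ∀ t ∈ RH, u t = 0 := by
  intro t ht
  have hle : ∀ N : ℕ, ‖u t‖ ≤
      (∏ k ∈ Finset.range N, ‖(t - (a + k)) / (t + ((starRingEnd ℂ) a + k))‖) * M := by
    intro N
    obtain ⟨v, -, hvb, hvu⟩ := B2b hd hb ha hu N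
    rw [hvu t ht, norm_mul, norm_prod]
    exact mul_le_mul_of_nonneg_left (hvb t ht) (Finset.prod_nonneg (fun _ _ => norm_nonneg _))
  have hlim := (B2a ha ht).mul_const M
  rw [zero_mul] at hlim
  have h0 : ‖u t‖ ≤ 0 := ge_of_tendsto' hlim hle
  exact norm_le_zero_iff.1 h0

end FTP
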