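import Pool.Agent.MP_693ed2_an.FTP.B2

/-!
# FTP row B3: half-plane solutions have no zeros and `ψ (t₁) = ψ (t₂)` forces a period
-/

namespace FTP

open Metric Set Filter Topology

private theorem b3_add {t : ℂ} (ht : t ∈ RH) (k : ℕ) : t + (k : ℂ) ∈ RH := by
  show 0 < (t + (k : ℂ)).re
  have h : 0 < t.re := ht
  rw [Complex.add_re, Complex.natCast_re]
  have : (0 : ℝ) ≤ k := Nat.cast_nonneg k
  linarith

private theorem b3_coord {n : ℕ} {F : ℂ → E n} (hF : DifferentiableOn ℂ F RH) (i : Fin n) :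
    DifferentiableOn ℂ (fun t => F t i) RH :=
  (EuclideanSpace.proj i : E n →L[ℂ] ℂ).differentiable.comp_differentiableOn hF

private theorem b3_vec {n : ℕ} {M : ℝ} {F : ℂ → E n} (hF : DifferentiableOn ℂ F RH)
    (hb : ∀ t ∈ RH, ‖F t‖ ≤ M) {a : ℂ} (ha : a ∈ RH) (h0 : ∀ k : ℕ, F (a + k) = 0) :
    ∀ t ∈ RH, F t = 0 := by
  intro t ht
  ext i
  have h := B2 (b3_coord hF i) (fun s hs => (PiLp.norm_apply_le (F s) i).trans (hb s hs)) ha
    (fun k => by rw [h0 k]; rfl) t ht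
  exact h

theorem B3a {n : ℕ} {f g : E n → E n} {r C : ℝ} (h : Grm f g r C) {ψ : ℂ → E n} (hψ : HS f r ψ) :
    ∀ t ∈ RH, ψ t ≠ 0 := by
  intro t₀ ht₀ h0
  have hk : ∀ k : ℕ, ψ (t₀ + k) = 0 := by
    intro k
    induction k with
    | zero => simpa using h0
    | succ k ih =>
      have e : t₀ + ((k + 1 : ℕ) : ℂ) = (t₀ + k) + 1 := by push_cast; ring
      rw [e, hψ.eqn _ (b3_add ht₀ k), ih, h.zero]
  have h1 : (1 : ℂ) ∈ RH := by show 0 < (1 : ℂ).re; simp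
  exact hψ.ne (b3_vec hψ.diff hψ.bound ht₀ hk 1 h1)

theorem B3b {n : ℕ} {f g : E n → E n} {r C : ℝ} (h : Grm f g r C) {ψ : ℂ → E n} (hψ : HS f r ψ)
    {t₁ t₂ : ℂ} (h₁ : t₁ ∈ RH) (h₂ : t₂ ∈ RH) (hle : t₁.re ≤ t₂.re) (heq : ψ t₁ = ψ t₂) :
    ∀ t ∈ RH, ψ (t + (t₂ - t₁)) = ψ t := by
  have hmem : ∀ t ∈ RH, t + (t₂ - t₁) ∈ RH := by
    intro t ht
    have h3 : 0 < t.re := ht
    show 0 < (t + (t₂ - t₁)).re
    rw [Complex.add_re, Complex.sub_re]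
    linarith
  have hk : ∀ k : ℕ, ψ (t₂ + k) = ψ (t₁ + k) := by
    intro k
    induction k with
    | zero => simpa using heq.symm
    | succ k ih =>
      have e1 : t₂ + ((k + 1 : ℕ) : ℂ) = (t₂ + k) + 1 := by push_cast; ring
      have e2 : t₁ + ((k + 1 : ℕ) : ℂ) = (t₁ + k) + 1 := by push_cast; ring
      rw [e1, e2, hψ.eqn _ (b3_add h₂ k), hψ.eqn _ (b3_add h₁ k), ih]
  have hd : DifferentiableOn ℂ (fun t => ψ (t + (t₂ - t₁)) - ψ t) RH := by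
    apply DifferentiableOn.sub _ hψ.diff
    exact hψ.diff.comp (differentiableOn_id.add_const _) hmem
  have hb : ∀ t ∈ RH, ‖ψ (t + (t₂ - t₁)) - ψ t‖ ≤ 2 * r := by
    intro t ht
    have h4 := norm_sub_le (ψ (t + (t₂ - t₁))) (ψ t)
    have h5 := hψ.bound _ (hmem t ht)
    have h6 := hψ.bound _ ht
    linarith
  have hz := b3_vec hd hb h₁ (fun k => by
    show ψ (t₁ + k + (t₂ - t₁)) - ψ (t₁ + k) = 0
    have e : t₁ + (k : ℂ) + (t₂ - t₁) = t₂ + k := by ring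
    rw [e, hk k, sub_self])
  intro t ht
  exact sub_eq_zero.1 (hz t ht)

end FTP
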