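import Pool.Agent.MP_693ed2_an.FTP.Defs

/-!
# FTP row B4: a half-plane function with an imaginary period decays exponentially

Proof.  We may assume `τ > 0` (if `τ < 0` then `-τ` is also a period: replace `t` by `t - iτ ∈ RH` in the
hypothesis).  Fix a coordinate `i` and put
`G z = if 0 < (z).im then ψ (-I * z) i else 0` (note `Re (-I z) = Im z`); `G` is periodic on all of `ℂ` with the
real period `τ`: `-I (z + τ) = -I z - I τ`, and the imaginary part of `z` does not change.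
`G` is differentiable at every `z` with `Im z > 0` (open set) and `G z → 0` as `Im z → ∞` (`hdec`), i.e.
`ZeroAtFilter (comap im atTop)` (`UpperHalfPlane`-free version in Mathlib:
`Function.Periodic.exp_decay_of_zero_at_inf` in `Mathlib/Analysis/Complex/Periodic.lean`, filter `I∞ = comap im atTop`).
It gives `G = O(exp (-2 π Im z / τ))`.  Hence constants `A_i`, `D_i` with
`‖ψ t i‖ ≤ A_i exp (-(2π/τ) Re t)` for `Re t ≥ D_i`.  Sum over the finitely many coordinates:
`‖ψ t‖ ≤ ∑ i, ‖ψ t i‖` (`EuclideanSpace.norm_eq`, or `EuclideanSpace.norm_le...`; any inequality between the norm and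
the coordinates will do), `c = 2π/τ`, `D = max D_i` and `A = ∑ A_i`.
-/

namespace FTP

open Metric Set Filter Topology

theorem B4_norm_le {n : ℕ} (x : E n) : ‖x‖ ≤ ∑ i, ‖x i‖ := by
  rw [EuclideanSpace.norm_eq]
  have hS : 0 ≤ ∑ i, ‖x i‖ := Finset.sum_nonneg fun i _ => norm_nonneg _
  apply Real.sqrt_le_iff.2
  refine ⟨hS, ?_⟩
  rw [pow_two, Finset.sum_mul]
  refine Finset.sum_le_sum fun i _ => ?_
  rw [pow_two]
  exact mul_le_mul_of_nonneg_left
    (Finset.single_le_sum (f := fun i => ‖x i‖) (fun j _ => norm_nonneg _) (Finset.mem_univ i))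
    (norm_nonneg _)

theorem B4_coord {n : ℕ} {ψ : ℂ → E n} (hd : DifferentiableOn ℂ ψ RH)
    (hdec : ∀ ε > 0, ∃ D : ℝ, 0 < D ∧ ∀ t : ℂ, D < t.re → ‖ψ t‖ < ε) {τ : ℝ} (hτ : 0 < τ)
    (hper : ∀ t ∈ RH, ψ (t + (τ : ℂ) * Complex.I) = ψ t) (i : Fin n) :
    ∃ A D : ℝ, ∀ t : ℂ, D ≤ t.re → 0 < t.re →
      ‖ψ t i‖ ≤ A * Real.exp (-(2 * Real.pi / τ * t.re)) := by
  classical
  set G : ℂ → ℂ := fun z => if 0 < z.im then ψ (-Complex.I * z) i else 0 with hG
  have hre : ∀ z : ℂ, (-Complex.I * z).re = z.im := by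
    intro z
    simp
  have hGper : Function.Periodic G (τ : ℂ) := by
    intro z
    have him : (z + (τ : ℂ)).im = z.im := by simp
    show (if 0 < (z + (τ : ℂ)).im then ψ (-Complex.I * (z + (τ : ℂ))) i else 0) =
      if 0 < z.im then ψ (-Complex.I * z) i else 0
    rw [him]
    by_cases hz : 0 < z.im
    · rw [if_pos hz, if_pos hz]
      have h1 : -Complex.I * (z + (τ : ℂ)) ∈ RH := by
        show 0 < (-Complex.I * (z + (τ : ℂ))).re
        rw [hre, him]
        exact hz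
      have h2 := hper _ h1
      have h3 : -Complex.I * (z + (τ : ℂ)) + (τ : ℂ) * Complex.I = -Complex.I * z := by ring
      rw [h3] at h2
      rw [h2]
    · rw [if_neg hz, if_neg hz]
  have hRH : IsOpen RH := isOpen_lt continuous_const Complex.continuous_re
  have hIm : IsOpen {z : ℂ | 0 < z.im} := isOpen_lt continuous_const Complex.continuous_im
  have hdiff : ∀ z : ℂ, 0 < z.im → DifferentiableAt ℂ G z := by
    intro z hz
    have h1 : -Complex.I * z ∈ RH := by
      show 0 < (-Complex.I * z).re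
      rw [hre]
      exact hz
    have h2 : DifferentiableAt ℂ ψ (-Complex.I * z) := hd.differentiableAt (hRH.mem_nhds h1)
    have h3 : DifferentiableAt ℂ (fun z : ℂ => ψ (-Complex.I * z)) z :=
      DifferentiableAt.comp z h2 (by fun_prop)
    have h4 : DifferentiableAt ℂ (fun z : ℂ => (EuclideanSpace.proj i : E n →L[ℂ] ℂ)
        (ψ (-Complex.I * z))) z :=
      (EuclideanSpace.proj i : E n →L[ℂ] ℂ).differentiableAt.comp z h3
    refine h4.congr_of_eventuallyEq ?_
    filter_upwards [hIm.mem_nhds hz] with w hw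
    have hw' : 0 < w.im := hw
    show (if 0 < w.im then ψ (-Complex.I * w) i else 0) = ψ (-Complex.I * w) i
    rw [if_pos hw']
  have hhol : ∀ᶠ z in Filter.comap Complex.im Filter.atTop, DifferentiableAt ℂ G z := by
    filter_upwards [(eventually_gt_atTop (0 : ℝ)).comap Complex.im] with z hz
    exact hdiff z hz
  have hzer : (Filter.comap Complex.im Filter.atTop).ZeroAtFilter G := by
    unfold Filter.ZeroAtFilter
    rw [Metric.tendsto_nhds]
    intro ε hε
    obtain ⟨D, hD, hD2⟩ := hdec ε hε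
    filter_upwards [(eventually_gt_atTop D).comap Complex.im] with z hz
    have hz0 : 0 < z.im := lt_trans hD hz
    rw [dist_zero_right]
    show ‖if 0 < z.im then ψ (-Complex.I * z) i else 0‖ < ε
    rw [if_pos hz0]
    refine lt_of_le_of_lt (PiLp.norm_apply_le _ i) (hD2 _ ?_)
    rw [hre]
    exact hz
  obtain ⟨A, hA⟩ := (Function.Periodic.exp_decay_of_zero_at_inf hτ hGper hhol hzer).bound
  rw [Filter.eventually_comap, Filter.eventually_atTop] at hA
  obtain ⟨D, hD⟩ := hA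
  refine ⟨A, D, fun t ht ht0 => ?_⟩
  have h1 : (Complex.I * t).im = t.re := by simp
  have h2 := hD t.re ht (Complex.I * t) h1
  have h3 : G (Complex.I * t) = ψ t i := by
    show (if 0 < (Complex.I * t).im then ψ (-Complex.I * (Complex.I * t)) i else 0) = ψ t i
    rw [h1, if_pos ht0]
    have h4 : -Complex.I * (Complex.I * t) = t := by
      rw [← mul_assoc, neg_mul, Complex.I_mul_I, neg_neg, one_mul]
    rw [h4]
  rw [h3, h1, Real.norm_eq_abs, abs_of_pos (Real.exp_pos _)] at h2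
  have h5 : -2 * Real.pi * t.re / τ = -(2 * Real.pi / τ * t.re) := by ring
  rw [h5] at h2
  exact h2

theorem B4_pos {n : ℕ} {ψ : ℂ → E n} (hd : DifferentiableOn ℂ ψ RH)
    (hdec : ∀ ε > 0, ∃ D : ℝ, 0 < D ∧ ∀ t : ℂ, D < t.re → ‖ψ t‖ < ε) {τ : ℝ} (hτ : 0 < τ)
    (hper : ∀ t ∈ RH, ψ (t + (τ : ℂ) * Complex.I) = ψ t) :
    ∃ A c D : ℝ, 0 < c ∧ 0 < D ∧ ∀ t : ℂ, D < t.re → ‖ψ t‖ ≤ A * Real.exp (-(c * t.re)) := by
  choose A D hAD using B4_coord hd hdec hτ hper
  have hD0 : 0 ≤ ∑ i, |D i| := Finset.sum_nonneg fun i _ => abs_nonneg _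
  refine ⟨∑ i, A i, 2 * Real.pi / τ, ∑ i, |D i| + 1, by positivity, by linarith, ?_⟩
  intro t ht
  have ht0 : 0 < t.re := by linarith
  refine le_trans (B4_norm_le (ψ t)) ?_
  rw [Finset.sum_mul]
  refine Finset.sum_le_sum fun i _ => hAD i t ?_ ht0
  have h1 : |D i| ≤ ∑ i, |D i| :=
    Finset.single_le_sum (f := fun i => |D i|) (fun j _ => abs_nonneg _) (Finset.mem_univ i)
  have h2 := le_abs_self (D i)
  linarith

theorem B4 {n : ℕ} {ψ : ℂ → E n} (hd : DifferentiableOn ℂ ψ RH)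
    (hdec : ∀ ε > 0, ∃ D : ℝ, 0 < D ∧ ∀ t : ℂ, D < t.re → ‖ψ t‖ < ε) {τ : ℝ} (hτ : τ ≠ 0)
    (hper : ∀ t ∈ RH, ψ (t + (τ : ℂ) * Complex.I) = ψ t) :
    ∃ A c D : ℝ, 0 < c ∧ 0 < D ∧ ∀ t : ℂ, D < t.re → ‖ψ t‖ ≤ A * Real.exp (-(c * t.re)) := by
  rcases lt_or_gt_of_ne hτ with h | h
  · have h' : 0 < -τ := by linarith
    refine B4_pos hd hdec h' ?_
    intro t ht
    have ht' : t + ((-τ : ℝ) : ℂ) * Complex.I ∈ RH := by
      show 0 < (t + ((-τ : ℝ) : ℂ) * Complex.I).re
      have : (t + ((-τ : ℝ) : ℂ) * Complex.I).re = t.re := by simp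
      rw [this]
      exact ht
    have h1 := hper _ ht'
    have h2 : t + ((-τ : ℝ) : ℂ) * Complex.I + (τ : ℂ) * Complex.I = t := by
      push_cast
      ring
    rw [h2] at h1
    exact h1.symm
  · exact B4_pos hd hdec h hper

end FTP
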