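import Pool.Agent.MP_693ed2_an.FTP.K5
import Pool.Agent.MP_693ed2_an.FTP.B3
import Pool.Agent.MP_693ed2_an.FTP.B4

/-!
# FTP row B5: half-plane solutions are injective

Proof of `B5a` (no exponential decay).  Let `c > 0`, `κ = min (c/4) (1/4)`, and `D` from `K5` with
`ε = κ / C`; for `k ≥ k₀ > D`: `‖ψ k‖ < κ / C`, so (`h.quad`, `C ‖z‖ ≤ κ`)
`‖ψ (k+1)‖ = ‖f (ψ k)‖ ≥ ‖ψ k‖ (1 - κ) ≥ ‖ψ k‖ exp (-2 κ)` (`1 - κ ≥ exp (-2κ)` for `0 ≤ κ ≤ 1/4`, e.g. from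
`Real.add_one_le_exp (2κ)`: `exp (2κ) ≥ 1 + 2κ` and `(1-κ)(1+2κ) = 1 + κ - 2κ² ≥ 1`).
So `‖ψ (k₀ + j)‖ ≥ ‖ψ k₀‖ exp (-(c/2) j)` for all `j : ℕ`.  On the other hand
`‖ψ (k₀ + j)‖ ≤ A exp (-c (k₀ + j))`, hence `‖ψ k₀‖ ≤ A exp (-c k₀) exp (-(c/2) j) → 0` as `j → ∞`, so
`ψ k₀ = 0`, contradicting `B3a`.

Proof of `B5`.  Let `ψ t₁ = ψ t₂`; by symmetry `Re t₁ ≤ Re t₂`; let `p = t₂ - t₁`, `B3b` gives
`ψ (t + p) = ψ t` on `RH`.  If `Re p > 0`: `ψ (1 + k p) = ψ 1` for all `k : ℕ`, and `Re (1 + k p) → ∞`, so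
`‖ψ 1‖ < ε` for every `ε > 0` by `K5`, contradiction with `hψ.ne`.  If `Re p = 0`: `p = τ I`; if `τ = 0` then
`t₁ = t₂`; otherwise `B4` (with `K5`) gives exponential decay, contradicting `B5a`.
-/

namespace FTP

open Metric Set Filter Topology

theorem B5a {n : ℕ} {f g : E n → E n} {r C : ℝ} (h : Grm f g r C) {ψ : ℂ → E n} (hψ : HS f r ψ) {A c D : ℝ}
    (hc : 0 < c) (hexp : ∀ t : ℂ, D < t.re → ‖ψ t‖ ≤ A * Real.exp (-(c * t.re))) : False := by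
  have hC := h.C_pos
  have hr := h.r_pos
  -- the constant
  obtain ⟨κ, hκ0, hκ1, hκ2⟩ : ∃ κ : ℝ, 0 < κ ∧ κ ≤ c / 4 ∧ κ ≤ 1 / 4 :=
    ⟨min (c / 4) (1 / 4), lt_min (by linarith) (by norm_num), min_le_left _ _, min_le_right _ _⟩
  obtain ⟨D', hD'0, hD'⟩ := K5 h hψ (ε := κ / C) (div_pos hκ0 hC)
  -- the starting point
  obtain ⟨k₀, hk₀⟩ := exists_nat_gt (max D' (max D 0))
  have hk1 : D' < (k₀ : ℝ) := lt_of_le_of_lt (le_max_left _ _) hk₀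
  have hk2 : D < (k₀ : ℝ) :=
    lt_of_le_of_lt (le_trans (le_max_left _ _) (le_max_right _ _)) hk₀
  have hk3 : (0 : ℝ) < (k₀ : ℝ) :=
    lt_of_le_of_lt (le_trans (le_max_right _ _) (le_max_right _ _)) hk₀
  have hmem : ∀ j : ℕ, ((k₀ : ℂ) + (j : ℂ)) ∈ RH := by
    intro j
    show 0 < ((k₀ : ℂ) + (j : ℂ)).re
    simp only [Complex.add_re, Complex.natCast_re]
    have : (0 : ℝ) ≤ (j : ℝ) := Nat.cast_nonneg j
    linarith
  have hre : ∀ j : ℕ, ((k₀ : ℂ) + (j : ℂ)).re = (k₀ : ℝ) + (j : ℝ) := by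
    intro j
    simp only [Complex.add_re, Complex.natCast_re]
  -- one step
  have hexpκ : Real.exp (-(2 * κ)) ≤ 1 - κ := by
    have h1 : 1 + 2 * κ ≤ Real.exp (2 * κ) := by
      have := Real.add_one_le_exp (2 * κ)
      linarith
    have h2 : 1 ≤ (1 - κ) * Real.exp (2 * κ) := by
      have h3 : (1 - κ) * (1 + 2 * κ) ≤ (1 - κ) * Real.exp (2 * κ) :=
        mul_le_mul_of_nonneg_left h1 (by linarith)
      nlinarith
    rw [Real.exp_neg]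
    rw [inv_le_iff_one_le_mul₀ (Real.exp_pos _)]
    exact h2
  have hstep : ∀ j : ℕ, ‖ψ ((k₀ : ℂ) + (j : ℂ))‖ * Real.exp (-(c / 2)) ≤
      ‖ψ ((k₀ : ℂ) + ((j + 1 : ℕ) : ℂ))‖ := by
    intro j
    have hj : (0 : ℝ) ≤ (j : ℝ) := Nat.cast_nonneg j
    have hsm : ‖ψ ((k₀ : ℂ) + (j : ℂ))‖ < κ / C := by
      apply hD'
      rw [hre]
      linarith
    have heq : ψ ((k₀ : ℂ) + ((j + 1 : ℕ) : ℂ)) = f (ψ ((k₀ : ℂ) + (j : ℂ))) := by
      rw [← hψ.eqn _ (hmem j)]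
      congr 1
      push_cast
      ring
    rw [heq]
    set z := ψ ((k₀ : ℂ) + (j : ℂ)) with hz
    have hzr : ‖z‖ ≤ r := hψ.bound _ (hmem j)
    have hzb : z ∈ ball (0 : E n) (8 * r) := by
      rw [mem_ball_zero_iff]
      linarith
    have hq := h.quad z hzb
    have h1 : ‖z‖ - ‖f z - z‖ ≤ ‖f z‖ := by
      have h2 : ‖z‖ ≤ ‖f z‖ + ‖f z - z‖ := by
        calc ‖z‖ = ‖f z - (f z - z)‖ := by rw [sub_sub_cancel]
          _ ≤ ‖f z‖ + ‖f z - z‖ := norm_sub_le _ _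
      linarith
    have hCz : C * ‖z‖ ≤ κ := by
      have := (lt_div_iff₀ hC).1 hsm
      linarith [mul_comm C ‖z‖]
    have hz0 : 0 ≤ ‖z‖ := norm_nonneg z
    have h3 : C * ‖z‖ ^ 2 ≤ κ * ‖z‖ := by
      have := mul_le_mul_of_nonneg_right hCz hz0
      nlinarith
    have h4 : ‖z‖ * (1 - κ) ≤ ‖f z‖ := by
      nlinarith
    have h5 : Real.exp (-(c / 2)) ≤ Real.exp (-(2 * κ)) := by
      apply Real.exp_le_exp.2
      linarith
    calc ‖z‖ * Real.exp (-(c / 2)) ≤ ‖z‖ * (1 - κ) :=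
          mul_le_mul_of_nonneg_left (le_trans h5 hexpκ) hz0
      _ ≤ ‖f z‖ := h4
  have hind : ∀ j : ℕ, ‖ψ (k₀ : ℂ)‖ * Real.exp (-(c / 2)) ^ j ≤ ‖ψ ((k₀ : ℂ) + (j : ℂ))‖ := by
    intro j
    induction j with
    | zero => simp
    | succ j ih =>
      calc ‖ψ (k₀ : ℂ)‖ * Real.exp (-(c / 2)) ^ (j + 1)
          = (‖ψ (k₀ : ℂ)‖ * Real.exp (-(c / 2)) ^ j) * Real.exp (-(c / 2)) := by ring
        _ ≤ ‖ψ ((k₀ : ℂ) + (j : ℂ))‖ * Real.exp (-(c / 2)) :=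
          mul_le_mul_of_nonneg_right ih (Real.exp_pos _).le
        _ ≤ _ := hstep j
  have hup : ∀ j : ℕ, ‖ψ (k₀ : ℂ)‖ ≤ A * Real.exp (-(c * k₀)) * Real.exp (-(c / 2)) ^ j := by
    intro j
    have hj : (0 : ℝ) ≤ (j : ℝ) := Nat.cast_nonneg j
    have h1 := hind j
    have h2 := hexp ((k₀ : ℂ) + (j : ℂ)) (by rw [hre]; linarith)
    rw [hre] at h2
    have e1 : Real.exp (-(c * ((k₀ : ℝ) + (j : ℝ)))) =
        Real.exp (-(c * k₀)) * Real.exp (-(c / 2)) ^ j * Real.exp (-(c / 2)) ^ j := by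
      rw [← Real.exp_nat_mul, ← Real.exp_add, ← Real.exp_add]
      congr 1
      ring
    rw [e1] at h2
    have hp : 0 < Real.exp (-(c / 2)) ^ j := pow_pos (Real.exp_pos _) j
    have h3 : ‖ψ (k₀ : ℂ)‖ * Real.exp (-(c / 2)) ^ j ≤
        (A * Real.exp (-(c * k₀)) * Real.exp (-(c / 2)) ^ j) * Real.exp (-(c / 2)) ^ j := by
      calc _ ≤ _ := h1
        _ ≤ _ := h2
        _ = _ := by ring
    exact le_of_mul_le_mul_right h3 hp
  have hlt : Real.exp (-(c / 2)) < 1 := by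
    rw [Real.exp_lt_one_iff]
    linarith
  have hlim : Tendsto (fun j : ℕ => A * Real.exp (-(c * k₀)) * Real.exp (-(c / 2)) ^ j) atTop
      (𝓝 (A * Real.exp (-(c * k₀)) * 0)) :=
    (tendsto_pow_atTop_nhds_zero_of_lt_one (Real.exp_pos _).le hlt).const_mul _
  rw [mul_zero] at hlim
  have hle : ‖ψ (k₀ : ℂ)‖ ≤ 0 := ge_of_tendsto' hlim hup
  have h0 : ψ (k₀ : ℂ) = 0 := norm_le_zero_iff.1 hle
  have hk : (k₀ : ℂ) ∈ RH := by
    show 0 < ((k₀ : ℂ)).re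
    simpa using hk3
  exact B3a h hψ _ hk h0

theorem B5 {n : ℕ} {f g : E n → E n} {r C : ℝ} (h : Grm f g r C) {ψ : ℂ → E n} (hψ : HS f r ψ) :
    InjOn ψ RH := by
  intro t₁ h₁ t₂ h₂ heq
  by_contra hne
  -- wlog
  obtain ⟨p, hp0, hpre, hper⟩ : ∃ p : ℂ, p ≠ 0 ∧ 0 ≤ p.re ∧ ∀ t ∈ RH, ψ (t + p) = ψ t := by
    rcases le_total t₁.re t₂.re with hle | hle
    · refine ⟨t₂ - t₁, sub_ne_zero.2 (Ne.symm hne), ?_, B3b h hψ h₁ h₂ hle heq⟩
      rw [Complex.sub_re]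
      linarith
    · refine ⟨t₁ - t₂, sub_ne_zero.2 hne, ?_, B3b h hψ h₂ h₁ hle heq.symm⟩
      rw [Complex.sub_re]
      linarith
  rcases hpre.lt_or_eq with hpos | hzero
  · -- `Re p > 0`
    have h1 : ∀ k : ℕ, ψ (1 + (k : ℂ) * p) = ψ 1 := by
      intro k
      induction k with
      | zero => simp
      | succ k ih =>
        have hm : (1 + (k : ℂ) * p) ∈ RH := by
          show 0 < (1 + (k : ℂ) * p).re
          simp only [Complex.add_re, Complex.one_re, Complex.mul_re, Complex.natCast_re,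
            Complex.natCast_im, zero_mul, sub_zero]
          have : (0 : ℝ) ≤ (k : ℝ) := Nat.cast_nonneg k
          nlinarith [mul_nonneg this hpos.le]
        rw [← ih, ← hper _ hm]
        congr 1
        push_cast
        ring
    have hn0 : 0 < ‖ψ 1‖ := norm_pos_iff.2 hψ.ne
    obtain ⟨D, hD0, hD⟩ := K5 h hψ hn0
    obtain ⟨k, hk⟩ := exists_nat_gt (D / p.re)
    have hk' : D < (k : ℝ) * p.re := (div_lt_iff₀ hpos).1 hk
    have h2 := hD (1 + (k : ℂ) * p) (by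
      simp only [Complex.add_re, Complex.one_re, Complex.mul_re, Complex.natCast_re,
        Complex.natCast_im, zero_mul, sub_zero]
      linarith)
    rw [h1 k] at h2
    exact lt_irrefl _ h2
  · -- `Re p = 0`
    have hpi : p = (p.im : ℂ) * Complex.I := by
      apply Complex.ext
      · simp [← hzero]
      · simp
    have hτ : p.im ≠ 0 := by
      intro h0
      apply hp0
      rw [hpi, h0]
      simp
    have hper' : ∀ t ∈ RH, ψ (t + (p.im : ℂ) * Complex.I) = ψ t := by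
      intro t ht
      rw [← hpi]
      exact hper t ht
    obtain ⟨A, c, D, hc, -, hexp⟩ := B4 hψ.diff (fun ε hε => K5 h hψ hε) hτ hper'
    exact B5a h hψ hc hexp

end FTP
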