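import Pool.Agent.MP_693ed2_an.FTP.Defs

/-!
# FTP row D1: elementary properties of `rt`, `om` on `D m δ`

Let `ζ ∈ D m δ`, `w = ζ ^ m`: `‖w - δ‖ < δ`, so `Re w > 0` (`δ - Re w ≤ ‖w - δ‖ < δ`) and `w ≠ 0`, `w` lies in
`Complex.slitPlane`, `|arg w| < π/2` (`Complex.abs_arg_lt_pi_div_two_iff`), `ζ ≠ 0`, `‖w‖ < 2 δ`.
* `re_pos`: above.
* `rt_pow`: `rt m ζ ^ m = exp (m * (log w / m)) = exp (log w) = w` (`Complex.exp_nat_mul`, `m ≠ 0`).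
* `om_pow`: `om m ζ ^ m = w / w = 1`.
* `eq_om_mul_rt`: `ζ = om m ζ * rt m ζ` (`rt ≠ 0`).
* `smul_mem`: `(s ζ)^m = s^m w` with `0 < s^m ≤ 1`; `‖s^m w - δ‖ ≤ s^m ‖w - δ‖ + (1 - s^m) δ < δ`.
* `log_smul`: `log ((s ζ)^m) = log w + m log s` for real `s > 0`: `Complex.log_ofReal_mul` (`(s^m : ℝ)` positive),
  `Real.log_pow`.  Hence `rt m (s ζ) = s rt m ζ` and `om m (s ζ) = om m ζ`.
* `om_locconst`: `rt m` is continuous at `ζ` (`log` is continuous at `w ∈ slitPlane`), so `om m` is continuous at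
  `ζ`; near `ζ` (inside the open set `D m δ`) its values are `m`-th roots of unity, a finite set
  (`{z | z ^ m = 1}`, e.g. `(Polynomial.X ^ m - 1).roots`, `nthRootsFinset`, or
  `Set.Finite` by `Polynomial`), so `{z | z^m = 1} \ {om m ζ}` is finite, hence closed, and does not contain
  `om m ζ`: eventually `om m ζ'` is not in it, so `om m ζ' = om m ζ`.
* `om_mul_arg`: since `om ^ m = 1` and `‖om‖ = 1`, `exp (i m arg om) = om ^ m = 1`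
  (`Complex.norm_mul_exp_arg_mul_I`), so `m * arg om = 2 π j`, `j : ℤ` (`Complex.exp_eq_one_iff`).
-/

namespace FTP

open Metric Set Filter Topology

theorem D_open (m : ℕ) (δ : ℝ) : IsOpen (D m δ) := by
  have h : D m δ = (fun ζ : ℂ => ‖ζ ^ m - (δ : ℂ)‖) ⁻¹' Iio δ := rfl
  rw [h]
  exact isOpen_Iio.preimage (by fun_prop)

theorem re_pos {m : ℕ} {δ : ℝ} {ζ : ℂ} (hζ : ζ ∈ D m δ) : 0 < (ζ ^ m).re := by
  have h : ‖ζ ^ m - (δ : ℂ)‖ < δ := hζ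
  have h1 := Complex.abs_re_le_norm (ζ ^ m - (δ : ℂ))
  rw [Complex.sub_re, Complex.ofReal_re] at h1
  have h2 := (abs_le.1 h1).1
  linarith

theorem ne_zero' {m : ℕ} (hm : 0 < m) {δ : ℝ} {ζ : ℂ} (hζ : ζ ∈ D m δ) : ζ ≠ 0 := by
  rintro rfl
  have h := re_pos hζ
  rw [zero_pow hm.ne'] at h
  simp at h

theorem rt_pow {m : ℕ} (hm : 0 < m) {δ : ℝ} {ζ : ℂ} (hζ : ζ ∈ D m δ) : rt m ζ ^ m = ζ ^ m := by
  have h0 : ζ ^ m ≠ 0 := pow_ne_zero m (ne_zero' hm hζ)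
  have hm' : (m : ℂ) ≠ 0 := Nat.cast_ne_zero.2 hm.ne'
  unfold rt
  rw [← Complex.exp_nat_mul, mul_div_cancel₀ _ hm', Complex.exp_log h0]

theorem om_pow {m : ℕ} (hm : 0 < m) {δ : ℝ} {ζ : ℂ} (hζ : ζ ∈ D m δ) : om m ζ ^ m = 1 := by
  have h0 : ζ ^ m ≠ 0 := pow_ne_zero m (ne_zero' hm hζ)
  unfold om
  rw [div_pow, rt_pow hm hζ, div_self h0]

theorem eq_om_mul_rt {m : ℕ} (ζ : ℂ) : ζ = om m ζ * rt m ζ := by
  unfold om
  rw [div_mul_cancel₀]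
  exact Complex.exp_ne_zero _

theorem smul_mem {m : ℕ} (hm : 0 < m) {δ : ℝ} (hδ : 0 < δ) {ζ : ℂ} (hζ : ζ ∈ D m δ) {s : ℝ} (hs : 0 < s)
    (hs1 : s ≤ 1) : (s : ℂ) * ζ ∈ D m δ := by
  have h : ‖ζ ^ m - (δ : ℂ)‖ < δ := hζ
  change ‖((s : ℂ) * ζ) ^ m - (δ : ℂ)‖ < δ
  have hs' : 0 < s ^ m := pow_pos hs m
  have hs1' : s ^ m ≤ 1 := pow_le_one₀ hs.le hs1
  have e : ((s : ℂ) * ζ) ^ m - (δ : ℂ) = ((s ^ m : ℝ) : ℂ) * (ζ ^ m - (δ : ℂ)) -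
      (((1 - s ^ m) * δ : ℝ) : ℂ) := by
    push_cast
    ring
  rw [e]
  have h1 := norm_sub_le (((s ^ m : ℝ) : ℂ) * (ζ ^ m - (δ : ℂ))) (((1 - s ^ m) * δ : ℝ) : ℂ)
  rw [norm_mul, Complex.norm_real, Complex.norm_real, Real.norm_of_nonneg hs'.le,
    Real.norm_of_nonneg (mul_nonneg (by linarith) hδ.le)] at h1
  have h2 := mul_lt_mul_of_pos_left h hs'
  linarith

theorem log_smul {m : ℕ} {δ : ℝ} {ζ : ℂ} (hζ : ζ ∈ D m δ) {s : ℝ} (hs : 0 < s) :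
    Complex.log (((s : ℂ) * ζ) ^ m) = Complex.log (ζ ^ m) + ((m * Real.log s : ℝ) : ℂ) := by
  have hre := re_pos hζ
  have h0 : ζ ^ m ≠ 0 := by
    intro h
    rw [h] at hre
    simp at hre
  have hs' : 0 < s ^ m := pow_pos hs m
  have e : ((s : ℂ) * ζ) ^ m = ((s ^ m : ℝ) : ℂ) * ζ ^ m := by
    push_cast
    ring
  rw [e, Complex.log_ofReal_mul hs' h0, Real.log_pow]
  ring

theorem om_smul {m : ℕ} (hm : 0 < m) {δ : ℝ} {ζ : ℂ} (hζ : ζ ∈ D m δ) {s : ℝ} (hs : 0 < s) :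
    om m ((s : ℂ) * ζ) = om m ζ := by
  have hs0 : (s : ℂ) ≠ 0 := Complex.ofReal_ne_zero.2 hs.ne'
  have hm' : (m : ℂ) ≠ 0 := Nat.cast_ne_zero.2 hm.ne'
  have h1 : rt m ((s : ℂ) * ζ) = (s : ℂ) * rt m ζ := by
    unfold rt
    rw [log_smul hζ hs]
    have e : (Complex.log (ζ ^ m) + ((m * Real.log s : ℝ) : ℂ)) / m =
        Complex.log (ζ ^ m) / m + ((Real.log s : ℝ) : ℂ) := by
      push_cast
      field_simp
    rw [e, Complex.exp_add, ← Complex.ofReal_exp, Real.exp_log hs, mul_comm]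
  unfold om
  rw [h1, mul_div_mul_left _ _ hs0]

theorem om_locconst {m : ℕ} (hm : 0 < m) {δ : ℝ} {ζ : ℂ} (hζ : ζ ∈ D m δ) :
    ∀ᶠ ζ' in 𝓝 ζ, om m ζ' = om m ζ := by
  have hre := re_pos hζ
  have hsl : ζ ^ m ∈ Complex.slitPlane := Or.inl hre
  have hc : ContinuousAt (om m) ζ := by
    have h1 : ContinuousAt (fun z : ℂ => Complex.exp (Complex.log (z ^ m) / m)) ζ := by
      apply Complex.continuous_exp.continuousAt.comp
      have h2 : ContinuousAt (fun z : ℂ => z ^ m) ζ := (continuous_pow m).continuousAt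
      exact (h2.clog hsl).div_const _
    exact ContinuousAt.div (f := fun z : ℂ => z) continuousAt_id h1 (Complex.exp_ne_zero _)
  have hfin : {z : ℂ | z ^ m = 1}.Finite := by
    have h1 : {z : ℂ | z ^ m = 1} ⊆ ((Polynomial.nthRootsFinset m (1 : ℂ) : Finset ℂ) : Set ℂ) := by
      intro z hz
      rw [Finset.mem_coe, Polynomial.mem_nthRootsFinset hm]
      exact hz
    exact (Finset.finite_toSet _).subset h1
  have hcl : IsClosed ({z : ℂ | z ^ m = 1} \ {om m ζ}) := (hfin.subset sdiff_subset).isClosed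
  have h2 : ∀ᶠ ζ' in 𝓝 ζ, om m ζ' ∉ ({z : ℂ | z ^ m = 1} \ {om m ζ}) := by
    have h4 : ∀ᶠ y in 𝓝 (om m ζ), y ∉ ({z : ℂ | z ^ m = 1} \ {om m ζ}) :=
      hcl.isOpen_compl.mem_nhds (by simp)
    exact hc.eventually h4
  have h3 : ∀ᶠ ζ' in 𝓝 ζ, ζ' ∈ D m δ := (D_open m δ).mem_nhds hζ
  filter_upwards [h2, h3] with z hz hz'
  by_contra hne
  exact hz ⟨om_pow hm hz', hne⟩

theorem om_mul_arg {m : ℕ} (hm : 0 < m) {δ : ℝ} {ζ : ℂ} (hζ : ζ ∈ D m δ) :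
    ∃ j : ℤ, m * Complex.arg (om m ζ) = 2 * Real.pi * j := by
  have h1 := om_pow hm hζ
  have hn : ‖om m ζ‖ = 1 := by
    have h2 : ‖om m ζ‖ ^ m = 1 := by rw [← norm_pow, h1, norm_one]
    exact (pow_eq_one_iff_of_nonneg (norm_nonneg _) hm.ne').1 h2
  have h3 := Complex.norm_mul_exp_arg_mul_I (om m ζ)
  rw [hn, Complex.ofReal_one, one_mul] at h3
  rw [← h3, ← Complex.exp_nat_mul, Complex.exp_eq_one_iff] at h1
  obtain ⟨j, hj⟩ := h1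
  refine ⟨j, ?_⟩
  have h4 : ((m * Complex.arg (om m ζ) : ℝ) : ℂ) * Complex.I =
      ((2 * Real.pi * j : ℝ) : ℂ) * Complex.I := by
    push_cast
    linear_combination hj
  exact_mod_cast mul_right_cancel₀ Complex.I_ne_zero h4

end FTP
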