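import Pool.Agent.MP_693ed2_an.FTP.D1

/-!
# FTP row D2: the components of `D m δ`

Let `x ∈ D m δ` and `S = {ζ ∈ D m δ | om m ζ = om m x}`.
* `comp_eq`: `connectedComponentIn (D m δ) x = S`.
  (⊇) `S` is preconnected: it is the image of the convex set `ball (δ : ℂ) δ` under the map
  `w ↦ om m x * exp (log w / m)`, continuous on the ball (`ball δ δ ⊆ slitPlane` since `Re w > 0`): if `ζ ∈ S`,
  `w = ζ ^ m` is in the ball and `ζ = om m ζ * rt m ζ = om m x * exp (log w / m)`; conversely for `w` in the ball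
  and `ζ = om m x * exp (log w / m)`: `ζ ^ m = w` (`om_pow`), so `ζ ∈ D m δ`, `rt m ζ = exp (log w / m)`, so
  `om m ζ = om m x`.  `IsPreconnected.subset_connectedComponentIn` with `x ∈ S ⊆ D m δ`.
  (⊆) The component is preconnected (`isPreconnected_connectedComponentIn`), contained in `D m δ`, contains `x`; the
  sets `S` and `D m δ \ S` are open (`om_locconst`, `D_open`) and disjoint, so it cannot meet the second
  (`IsPreconnected.subset_left_of_subset_union`, or: `om m` is continuous on the component into a discrete set;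
  `IsPreconnected.constant_of_...`).
* `comp_simply`: `S` is homeomorphic to `ball (δ : ℂ) δ` by `ζ ↦ ζ ^ m` with the inverse above; the ball is convex
  and nonempty, hence contractible (`Convex.contractibleSpace`), `ContractibleSpace` transfers by the
  homeomorphism (`Homeomorph.contractibleSpace`), and contractible spaces are simply connected
  (`SimplyConnectedSpace.ofContractible`).
* `comp_frontier`: `0 ∉ D m δ` (`ne_zero'`); `s x ∈ S` for `0 < s ≤ 1` (`smul_mem`, `om_smul`) and `s x → 0`, so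
  `0 ∈ closure S`; `frontier S = closure S \ interior S` and `interior S ⊆ S ⊆ D m δ`.
* `comp_smul`: from `comp_eq`, `smul_mem`, `om_smul`.
-/

namespace FTP

open Metric Set Filter Topology

/-- The parametrisation of the set `S`. -/
noncomputable def d2_par (m : ℕ) (c : ℂ) (w : ℂ) : ℂ := c * Complex.exp (Complex.log w / m)

theorem d2_slit {δ : ℝ} {w : ℂ} (hw : w ∈ ball (δ : ℂ) δ) : w ∈ Complex.slitPlane := by
  rw [mem_ball, dist_eq_norm] at hw
  have h1 := Complex.abs_re_le_norm (w - (δ : ℂ))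
  rw [Complex.sub_re, Complex.ofReal_re] at h1
  have h2 := (abs_le.1 h1).1
  exact Or.inl (by linarith)

theorem d2_pow {m : ℕ} (hm : 0 < m) {δ : ℝ} {x : ℂ} (hx : x ∈ D m δ) {w : ℂ}
    (hw : w ∈ ball (δ : ℂ) δ) : d2_par m (om m x) w ^ m = w := by
  have hm' : (m : ℂ) ≠ 0 := Nat.cast_ne_zero.2 hm.ne'
  unfold d2_par
  rw [mul_pow, om_pow hm hx, one_mul, ← Complex.exp_nat_mul, mul_div_cancel₀ _ hm',
    Complex.exp_log (Complex.slitPlane_ne_zero (d2_slit hw))]

theorem d2_mem {m : ℕ} (hm : 0 < m) {δ : ℝ} {x : ℂ} (hx : x ∈ D m δ) {w : ℂ}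
    (hw : w ∈ ball (δ : ℂ) δ) : d2_par m (om m x) w ∈ D m δ := by
  change ‖d2_par m (om m x) w ^ m - (δ : ℂ)‖ < δ
  rw [d2_pow hm hx hw]
  rwa [mem_ball, dist_eq_norm] at hw

theorem d2_om {m : ℕ} (hm : 0 < m) {δ : ℝ} {x : ℂ} (hx : x ∈ D m δ) {w : ℂ}
    (hw : w ∈ ball (δ : ℂ) δ) : om m (d2_par m (om m x) w) = om m x := by
  have h1 : rt m (d2_par m (om m x) w) = Complex.exp (Complex.log w / m) := by
    unfold rt
    rw [d2_pow hm hx hw]
  have h2 : om m (d2_par m (om m x) w) = d2_par m (om m x) w / rt m (d2_par m (om m x) w) := rfl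
  rw [h2, h1]
  unfold d2_par
  rw [mul_div_assoc, div_self (Complex.exp_ne_zero _), mul_one]

theorem d2_inv {m : ℕ} {x ζ : ℂ} (h : om m ζ = om m x) : d2_par m (om m x) (ζ ^ m) = ζ := by
  unfold d2_par
  rw [← h]
  exact (eq_om_mul_rt (m := m) ζ).symm

theorem d2_cont (m : ℕ) (c : ℂ) (δ : ℝ) : ContinuousOn (d2_par m c) (ball (δ : ℂ) δ) := by
  intro w hw
  apply ContinuousAt.continuousWithinAt
  have h1 : ContinuousAt (fun z : ℂ => Complex.exp (Complex.log z / m)) w := by
    apply Complex.continuous_exp.continuousAt.comp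
    exact ((continuousAt_clog (d2_slit hw))).div_const _
  exact continuousAt_const.mul h1

theorem d2_ball {m : ℕ} {δ : ℝ} {ζ : ℂ} (hζ : ζ ∈ D m δ) : ζ ^ m ∈ ball (δ : ℂ) δ := by
  rw [mem_ball, dist_eq_norm]
  exact hζ

theorem comp_eq {m : ℕ} (hm : 0 < m) {δ : ℝ} (hδ : 0 < δ) {x : ℂ} (hx : x ∈ D m δ) :
    connectedComponentIn (D m δ) x = {ζ | ζ ∈ D m δ ∧ om m ζ = om m x} := by
  set S : Set ℂ := {ζ | ζ ∈ D m δ ∧ om m ζ = om m x} with hS
  have hSD : S ⊆ D m δ := fun ζ h => h.1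
  have hxS : x ∈ S := ⟨hx, rfl⟩
  have himg : d2_par m (om m x) '' (ball (δ : ℂ) δ) = S := by
    apply Subset.antisymm
    · rintro _ ⟨w, hw, rfl⟩
      exact ⟨d2_mem hm hx hw, d2_om hm hx hw⟩
    · intro ζ hζ
      exact ⟨ζ ^ m, d2_ball hζ.1, d2_inv hζ.2⟩
  have hpre : IsPreconnected S := by
    rw [← himg]
    exact (convex_ball (δ : ℂ) δ).isPreconnected.image _ (d2_cont m _ δ)
  apply Subset.antisymm
  · have hopen1 : IsOpen S := by
      rw [isOpen_iff_mem_nhds]
      intro ζ hζ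
      filter_upwards [om_locconst hm hζ.1, (D_open m δ).mem_nhds hζ.1] with z hz hz'
      exact ⟨hz', hz.trans hζ.2⟩
    have hopen2 : IsOpen (D m δ \ S) := by
      rw [isOpen_iff_mem_nhds]
      intro ζ hζ
      filter_upwards [om_locconst hm hζ.1, (D_open m δ).mem_nhds hζ.1] with z hz hz'
      refine ⟨hz', ?_⟩
      intro h
      exact hζ.2 ⟨hζ.1, hz.symm.trans h.2⟩
    apply isPreconnected_connectedComponentIn.subset_left_of_subset_union hopen1 hopen2
      disjoint_sdiff_right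
    · intro ζ hζ
      have h1 := connectedComponentIn_subset (D m δ) x hζ
      by_cases h2 : ζ ∈ S
      · exact Or.inl h2
      · exact Or.inr ⟨h1, h2⟩
    · exact ⟨x, mem_connectedComponentIn hx, hxS⟩
  · exact hpre.subset_connectedComponentIn hxS hSD

theorem comp_simply {m : ℕ} (hm : 0 < m) {δ : ℝ} (hδ : 0 < δ) {x : ℂ} (hx : x ∈ D m δ) :
    SimplyConnectedSpace (connectedComponentIn (D m δ) x) := by
  rw [comp_eq hm hδ hx]
  let e : ({ζ | ζ ∈ D m δ ∧ om m ζ = om m x} : Set ℂ) ≃ₜ (ball (δ : ℂ) δ) :=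
    { toFun := fun ζ => ⟨ζ.1 ^ m, d2_ball ζ.2.1⟩
      invFun := fun w => ⟨d2_par m (om m x) w.1, d2_mem hm hx w.2, d2_om hm hx w.2⟩
      left_inv := fun ζ => Subtype.ext (d2_inv ζ.2.2)
      right_inv := fun w => Subtype.ext (d2_pow hm hx w.2)
      continuous_toFun := by
        apply Continuous.subtype_mk
        exact continuous_subtype_val.pow m
      continuous_invFun := by
        apply Continuous.subtype_mk
        exact continuousOn_iff_continuous_domRestrict.1 (d2_cont m (om m x) δ) }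
  have : ContractibleSpace (ball (δ : ℂ) δ) :=
    (convex_ball (δ : ℂ) δ).contractibleSpace ⟨_, d2_ball hx⟩
  have : ContractibleSpace ({ζ | ζ ∈ D m δ ∧ om m ζ = om m x} : Set ℂ) := e.contractibleSpace
  exact SimplyConnectedSpace.ofContractible _

theorem comp_frontier {m : ℕ} (hm : 0 < m) {δ : ℝ} (hδ : 0 < δ) {x : ℂ} (hx : x ∈ D m δ) :
    (0 : ℂ) ∈ frontier (connectedComponentIn (D m δ) x) := by
  constructor
  · rw [mem_closure_iff_seq_limit]
    refine ⟨fun k : ℕ => ((1 / ((k : ℝ) + 1) : ℝ) : ℂ) * x, ?_, ?_⟩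
    · intro k
      have h1 : (0 : ℝ) < 1 / ((k : ℝ) + 1) := by positivity
      have h2 : 1 / ((k : ℝ) + 1) ≤ (1 : ℝ) := by
        rw [div_le_one (by positivity)]
        have : (0 : ℝ) ≤ k := Nat.cast_nonneg k
        linarith
      rw [comp_eq hm hδ hx]
      exact ⟨smul_mem hm hδ hx h1 h2, om_smul hm hx h1⟩
    · have h1 : Tendsto (fun k : ℕ => (1 / ((k : ℝ) + 1) : ℝ)) atTop (𝓝 0) :=
        tendsto_one_div_add_atTop_nhds_zero_nat
      have h2 : Tendsto (fun k : ℕ => ((1 / ((k : ℝ) + 1) : ℝ) : ℂ)) atTop (𝓝 ((0 : ℝ) : ℂ)) :=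
        (Complex.continuous_ofReal.tendsto 0).comp h1
      have h3 := h2.mul_const x
      rwa [Complex.ofReal_zero, zero_mul] at h3
  · intro h
    exact ne_zero' hm (connectedComponentIn_subset (D m δ) x (interior_subset h)) rfl

theorem comp_smul {m : ℕ} (hm : 0 < m) {δ : ℝ} (hδ : 0 < δ) {x : ℂ} (hx : x ∈ D m δ) {ζ : ℂ}
    (hζ : ζ ∈ connectedComponentIn (D m δ) x) {s : ℝ} (hs : 0 < s) (hs1 : s ≤ 1) :
    (s : ℂ) * ζ ∈ connectedComponentIn (D m δ) x := by
  rw [comp_eq hm hδ hx] at hζ ⊢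
  exact ⟨smul_mem hm hδ hζ.1 hs hs1, (om_smul hm hζ.1 hs).trans hζ.2⟩

end FTP
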