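import Pool.Agent.MP_693ed2_an.FTP.D1

/-!
# FTP row D3: the coordinate `W`

Let `ζ ∈ D m δ`, `w = ζ ^ m`.
* `W_diff`: near `ζ`, `W m ζ' = -log (ζ' ^ m) - const` by `om_locconst`, and `log` is differentiable on
  `slitPlane ∋ w`.
* `W_re`: `Re (W m ζ) = -log ‖w‖ > 0` since `0 < ‖w‖ < 2 δ ≤ 1`.
* `W_inj`: let `W m ζ₁ = W m ζ₂`.  Real parts: `‖w₁‖ = ‖w₂‖` (`Real.log_injOn_pos`).  Imaginary parts:
  `arg w₁ + m arg (om ζ₁) = arg w₂ + m arg (om ζ₂)`; by `om_mul_arg` `arg w₁ - arg w₂ = 2 π j`, and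
  `|arg w₁ - arg w₂| < π` (`|arg w| < π/2`), so `j = 0`, `arg w₁ = arg w₂`, hence `log w₁ = log w₂`,
  `rt m ζ₁ = rt m ζ₂`, and `arg (om ζ₁) = arg (om ζ₂)` (`m ≠ 0`), with `‖om ζ₁‖ = ‖om ζ₂‖ = 1` (`om_pow`,
  `pow_eq_one` norms), so `om ζ₁ = om ζ₂` (`Complex.ext_norm_arg`), and `ζ = om ζ * rt ζ`.
* `W_tendsto`: `Re (W m ζ) = -log ‖ζ ^ m‖ → ∞` as `ζ → 0` in `D m δ` (`‖ζ ^ m‖ → 0` within `≠ 0`;
  `Real.tendsto_log_nhdsGT_zero`...).
* `W_step`: with `s = exp (-1/m)`: `W m (s ζ) = W m ζ + 1` by `log_smul`, `om_smul`.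
-/

namespace FTP

open Metric Set Filter Topology

theorem d3_ne {m : ℕ} {δ : ℝ} {ζ : ℂ} (hζ : ζ ∈ D m δ) : ζ ^ m ≠ 0 := by
  intro h
  have hre := re_pos hζ
  rw [h] at hre
  simp at hre

theorem d3_re (m : ℕ) (ζ : ℂ) : (W m ζ).re = -Real.log ‖ζ ^ m‖ := by
  unfold W
  rw [Complex.sub_re, Complex.neg_re, Complex.log_re, Complex.re_ofReal_mul, Complex.I_re]
  ring

theorem d3_im (m : ℕ) (ζ : ℂ) :
    (W m ζ).im = -Complex.arg (ζ ^ m) - m * Complex.arg (om m ζ) := by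
  unfold W
  rw [Complex.sub_im, Complex.neg_im, Complex.log_im, Complex.im_ofReal_mul, Complex.I_im]
  ring

theorem d3_lt {m : ℕ} {δ : ℝ} {ζ : ℂ} (hζ : ζ ∈ D m δ) : ‖ζ ^ m‖ < 2 * δ := by
  have h : ‖ζ ^ m - (δ : ℂ)‖ < δ := hζ
  have hδ : 0 < δ := (norm_nonneg _).trans_lt h
  have h1 := norm_sub_norm_le (ζ ^ m) (δ : ℂ)
  rw [Complex.norm_real, Real.norm_of_nonneg hδ.le] at h1
  linarith

theorem d3_om {m : ℕ} (hm : 0 < m) {δ : ℝ} {ζ : ℂ} (hζ : ζ ∈ D m δ) : ‖om m ζ‖ = 1 := by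
  have h2 : ‖om m ζ‖ ^ m = 1 := by rw [← norm_pow, om_pow hm hζ, norm_one]
  exact (pow_eq_one_iff_of_nonneg (norm_nonneg _) hm.ne').1 h2

theorem W_diff {m : ℕ} (hm : 0 < m) {δ : ℝ} : DifferentiableOn ℂ (W m) (D m δ) := by
  intro ζ hζ
  apply DifferentiableAt.differentiableWithinAt
  have hsl : ζ ^ m ∈ Complex.slitPlane := Or.inl (re_pos hζ)
  have h1 : DifferentiableAt ℂ (fun z : ℂ => -Complex.log (z ^ m) -
      ((m * Complex.arg (om m ζ) : ℝ) : ℂ) * Complex.I) ζ := by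
    have h2 : DifferentiableAt ℂ (fun z : ℂ => z ^ m) ζ := differentiableAt_pow m
    exact ((h2.clog hsl).neg).sub_const _
  refine h1.congr_of_eventuallyEq ?_
  filter_upwards [om_locconst hm hζ] with z hz
  unfold W
  rw [hz]

theorem W_re {m : ℕ} (hm : 0 < m) {δ : ℝ} (hδ1 : δ ≤ 1 / 2) {ζ : ℂ} (hζ : ζ ∈ D m δ) : W m ζ ∈ RH := by
  change 0 < (W m ζ).re
  rw [d3_re]
  have h1 := norm_pos_iff.2 (d3_ne hζ)
  have h2 := d3_lt hζ
  have h3 := Real.log_neg h1 (by linarith)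
  linarith

theorem W_inj {m : ℕ} (hm : 0 < m) {δ : ℝ} : InjOn (W m) (D m δ) := by
  intro a ha b hb hab
  have h1 := norm_pos_iff.2 (d3_ne ha)
  have h2 := norm_pos_iff.2 (d3_ne hb)
  have hre := congrArg Complex.re hab
  have him := congrArg Complex.im hab
  rw [d3_re, d3_re, neg_inj] at hre
  rw [d3_im, d3_im] at him
  have hn : ‖a ^ m‖ = ‖b ^ m‖ := Real.log_injOn_pos h1 h2 hre
  obtain ⟨i, hi⟩ := om_mul_arg hm ha
  obtain ⟨j, hj⟩ := om_mul_arg hm hb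
  have e1 := abs_lt.1 (Complex.abs_arg_lt_pi_div_two_iff.2 (Or.inl (re_pos ha)))
  have e2 := abs_lt.1 (Complex.abs_arg_lt_pi_div_two_iff.2 (Or.inl (re_pos hb)))
  have hpi := Real.pi_pos
  have hij : i = j := by
    have e3 : Complex.arg (b ^ m) - Complex.arg (a ^ m) = 2 * Real.pi * ((i : ℝ) - j) := by
      linarith
    have e4 : |((i : ℝ) - j)| < 1 := by
      rw [abs_lt]
      constructor
      · by_contra hc
        push Not at hc
        nlinarith [e1.1, e1.2, e2.1, e2.2]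
      · by_contra hc
        push Not at hc
        nlinarith [e1.1, e1.2, e2.1, e2.2]
    have e5 : |(i - j : ℤ)| < 1 := by exact_mod_cast e4
    have e6 := abs_lt.1 e5
    omega
  have harg : Complex.arg (om m a) = Complex.arg (om m b) := by
    have hm' : (m : ℝ) ≠ 0 := Nat.cast_ne_zero.2 hm.ne'
    apply mul_left_cancel₀ hm'
    rw [hi, hj, hij]
  have hom : om m a = om m b := Complex.ext_norm_arg (by rw [d3_om hm ha, d3_om hm hb]) harg
  have hpow : a ^ m = b ^ m := by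
    apply Complex.ext_norm_arg hn
    rw [harg] at him
    linarith
  have hrt : rt m a = rt m b := by
    unfold rt
    rw [hpow]
  rw [eq_om_mul_rt (m := m) a, eq_om_mul_rt (m := m) b, hom, hrt]

theorem W_tendsto {m : ℕ} (hm : 0 < m) {δ : ℝ} : Tendsto (fun ζ => (W m ζ).re) (𝓝[D m δ] 0) atTop := by
  have h1 : Tendsto (fun z : ℂ => ‖z ^ m‖) (𝓝[D m δ] 0) (𝓝[>] 0) := by
    apply tendsto_nhdsWithin_iff.2
    constructor
    · have h2 : Tendsto (fun z : ℂ => ‖z ^ m‖) (𝓝 0) (𝓝 ‖(0 : ℂ) ^ m‖) :=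
        (Continuous.tendsto (by fun_prop) _)
      rw [zero_pow hm.ne', norm_zero] at h2
      exact h2.mono_left nhdsWithin_le_nhds
    · filter_upwards [self_mem_nhdsWithin] with z hz
      exact norm_pos_iff.2 (d3_ne hz)
  have h3 := (Real.tendsto_log_nhdsGT_zero.comp h1)
  have h4 := tendsto_neg_atBot_atTop.comp h3
  refine h4.congr ?_
  intro z
  rw [d3_re]
  rfl

theorem W_step {m : ℕ} (hm : 0 < m) {δ : ℝ} {ζ : ℂ} (hζ : ζ ∈ D m δ) :
    W m ((Real.exp (-1 / m) : ℂ) * ζ) = W m ζ + 1 := by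
  have hs : 0 < Real.exp (-1 / m) := Real.exp_pos _
  have hm' : (m : ℝ) ≠ 0 := Nat.cast_ne_zero.2 hm.ne'
  unfold W
  rw [om_smul hm hζ hs, log_smul hζ hs, Real.log_exp]
  have e : (m : ℝ) * (-1 / m) = -1 := by field_simp
  rw [e]
  push_cast
  ring

end FTP
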