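import Pool.Agent.MP_693ed2_an.FTP.D2
import Pool.Agent.MP_693ed2_an.FTP.D3

/-!
# FTP row D4: the properties of `W` collected (for other uses)

Proof: `W_diff`, `W_inj`, `W_tendsto`, `W_step` with `comp_smul`; `Re (W m ζ) = -log ‖ζ ^ m‖ > -log (2 δ)`
as `0 < ‖ζ ^ m‖ < 2 δ`.
-/

namespace FTP

open Metric Set Filter Topology

theorem W_all {m : ℕ} (hm : 0 < m) {δ : ℝ} (hδ : 0 < δ) :
    IsOpen (D m δ) ∧ DifferentiableOn ℂ (W m) (D m δ) ∧ InjOn (W m) (D m δ) ∧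
      (∀ ζ ∈ D m δ, -Real.log (2 * δ) < (W m ζ).re) ∧
      Tendsto (fun ζ => (W m ζ).re) (𝓝[D m δ] 0) atTop ∧
      ∀ x ∈ D m δ, ∀ ζ ∈ connectedComponentIn (D m δ) x,
        ∃ ζ' ∈ connectedComponentIn (D m δ) x, W m ζ' = W m ζ + 1 := by
  refine ⟨D_open m δ, W_diff hm, W_inj hm, ?_, W_tendsto hm, ?_⟩
  · intro ζ hζ
    rw [d3_re]
    have h1 := norm_pos_iff.2 (d3_ne hζ)
    have h2 := Real.log_lt_log h1 (d3_lt hζ)
    linarith
  · intro x hx ζ hζ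
    have hs : 0 < Real.exp (-1 / m) := Real.exp_pos _
    have hs1 : Real.exp (-1 / m) ≤ 1 := by
      rw [Real.exp_le_one_iff]
      exact div_nonpos_of_nonpos_of_nonneg (by norm_num) (Nat.cast_nonneg m)
    exact ⟨_, comp_smul hm hδ hx hζ hs hs1, W_step hm (connectedComponentIn_subset _ _ hζ)⟩

end FTP
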