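import Mathlib

/-!
# FTP: parabolic curves for every germ tangent to the identity (definitions)

Project MP_693ed2_an (Fatou flowers).  Paper proof: /team-store/FTP_PROOF.md .
-/

namespace FTP

open Metric Set Filter Topology

/-- `C^n` with its hermitian norm. -/
abbrev E (n : ℕ) : Type := EuclideanSpace ℂ (Fin n)

/-- Standing assumptions (all constants fixed) on the map `f`, tangent to the identity with the isolated
fixed point `0`, and on a local inverse `g` of `f`. -/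
structure Grm {n : ℕ} (f g : E n → E n) (r C : ℝ) : Prop where
  r_pos : 0 < r
  C_pos : 0 < C
  small : C * (8 * r) ≤ 1 / 4
  diff : DifferentiableOn ℂ f (ball 0 (8 * r))
  zero : f 0 = 0
  quad : ∀ z ∈ ball (0 : E n) (8 * r), ‖f z - z‖ ≤ C * ‖z‖ ^ 2
  lip : ∀ ρ : ℝ, 0 < ρ → ρ ≤ 8 * r → ∀ z ∈ ball (0 : E n) ρ, ∀ w ∈ ball (0 : E n) ρ,
    ‖(f z - z) - (f w - w)‖ ≤ C * ρ * ‖z - w‖
  ne : ∀ z, 0 < ‖z‖ → ‖z‖ ≤ r → f z ≠ z
  gdiff : DifferentiableOn ℂ g (ball 0 (4 * r))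
  gf : ∀ z, ‖z‖ ≤ r → g (f z) = z
  fg : ∀ w ∈ ball (0 : E n) (4 * r), ‖g w‖ < 8 * r ∧ f (g w) = w

/-- The open right half-plane. -/
def RH : Set ℂ := {t | 0 < t.re}

/-- `ψ` is a half-plane solution of norm `≤ r`: holomorphic on `Re t > 0`, `ψ (t + 1) = f (ψ t)`,
`ψ 1 ≠ 0`. -/
structure HS {n : ℕ} (f : E n → E n) (r : ℝ) (ψ : ℂ → E n) : Prop where
  diff : DifferentiableOn ℂ ψ RH
  bound : ∀ t ∈ RH, ‖ψ t‖ ≤ r
  eqn : ∀ t ∈ RH, ψ (t + 1) = f (ψ t)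
  ne : ψ 1 ≠ 0

/-- A Koenigs curve of the map `l • f` on the disc of radius `ρ`. -/
structure Koe {n : ℕ} (f : E n → E n) (r l : ℝ) (v : E n) (ρ : ℝ) (φ : ℂ → E n) : Prop where
  diff : DifferentiableOn ℂ φ (ball 0 ρ)
  zero : φ 0 = 0
  deriv : HasDerivAt φ v 0
  bound : ∀ z ∈ ball (0 : ℂ) ρ, ‖φ z‖ ≤ r
  eqn : ∀ z ∈ ball (0 : ℂ) ρ, φ ((l : ℂ) * z) = (l : ℂ) • f (φ z)

/-- The iteration for the Koenigs curve `z • v + h z`. -/
noncomputable def H {n : ℕ} (f : E n → E n) (l : ℝ) (v : E n) : ℕ → ℂ → E n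
  | 0 => fun _ => 0
  | k + 1 => fun z => (l : ℂ)⁻¹ • H f l v k ((l : ℂ) * z) -
      (f (z • v + H f l v k z) - (z • v + H f l v k z))

/-- With `m = ν - 1`: the set `D_{δ,ν} = {ζ : |ζ^{ν-1} - δ| < δ}`. -/
def D (m : ℕ) (δ : ℝ) : Set ℂ := {ζ | ‖ζ ^ m - (δ : ℂ)‖ < δ}

/-- The principal `m`-th root of `ζ ^ m`. -/
noncomputable def rt (m : ℕ) (ζ : ℂ) : ℂ := Complex.exp (Complex.log (ζ ^ m) / m)

/-- The `m`-th root of unity `ζ / rt m ζ`, which is locally constant on `D m δ`. -/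
noncomputable def om (m : ℕ) (ζ : ℂ) : ℂ := ζ / rt m ζ

/-- The change of coordinate `W = -log (ζ ^ m) - i m arg (om ζ)`. -/
noncomputable def W (m : ℕ) (ζ : ℂ) : ℂ :=
  -Complex.log (ζ ^ m) - ((m * Complex.arg (om m ζ) : ℝ) : ℂ) * Complex.I

/-- `φ` is a parabolic curve of `f` with the domain `Δ`: `Δ` is a simply connected domain with the origin
on its boundary, `φ` is holomorphic and injective on `Δ`, nowhere zero, tends to the origin as `ζ → 0`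
in `Δ`, its image is `f`-invariant and the iterates of `f` converge to the origin uniformly on the
image. -/
structure ParabolicCurve {n : ℕ} (f : E n → E n) (Δ : Set ℂ) (φ : ℂ → E n) : Prop where
  isOpen : IsOpen Δ
  simply : SimplyConnectedSpace Δ
  bdry : (0 : ℂ) ∈ frontier Δ
  holo : DifferentiableOn ℂ φ Δ
  inj : InjOn φ Δ
  ne : ∀ ζ ∈ Δ, φ ζ ≠ 0
  cont : Tendsto φ (𝓝[Δ] 0) (𝓝 0)
  maps : MapsTo f (φ '' Δ) (φ '' Δ)
  conv : TendstoUniformlyOn (fun k : ℕ => f^[k]) (fun _ => 0) atTop (φ '' Δ)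

end FTP
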