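import Pool.Agent.MP_693ed2_an.FTP.K1a

/-!
# FTP row K1: existence of a Koenigs curve on a small disc

Proof.  Choose `M = C (‖v‖+1)² / (1 - l)` (so `l M + C (‖v‖+1)² = M`, `M > 0`) and `s > 0` so small that the
hypotheses of `K1a` hold and `s (‖v‖ + 1) ≤ r`.  By the second part of `K1a` the sequence `H k z` is
uniformly Cauchy on `ball 0 s` (geometric bound with ratio `q = (1+l)/2 < 1`, `‖z‖² ≤ s²`); let `h∞` be the
limit: `TendstoUniformlyOn` on `ball 0 s` (e.g. `UniformCauchySeqOn.tendstoUniformlyOn_of_tendsto`, or bound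
the tail by a geometric series: `‖h∞ z - H k z‖ ≤ q^k M ‖z‖²/(1-q)`, `cauchySeq_of_le_geometric`,
`dist_le_of_le_geometric_of_tendsto`).  Then `h∞` is differentiable on `ball 0 s`
(`TendstoLocallyUniformlyOn.differentiableOn`), `‖h∞ z‖ ≤ M ‖z‖²`, and
`h∞ z = l⁻¹ • h∞ (l z) - F (z v + h∞ z)` with `F w = f w - w` (pass to the limit; `f` is continuous on
`ball 0 (8 r)`, all points `z v + H k z`, `z v + h∞ z` have norm `≤ s (‖v‖+1) < 8 r`; uniqueness of limits).
Put `φ z = z v + h∞ z`.  Then `φ 0 = 0` (`‖h∞ 0‖ ≤ 0`), `φ` has derivative `v` at `0`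
(`‖h∞ z‖ ≤ M ‖z‖²`, `hasDerivAt_iff_isLittleO` or: `h∞` has derivative `0` at `0`),
`‖φ z‖ ≤ ‖z‖ (‖v‖+1) ≤ r`, and
`φ (l z) = l z v + h∞ (l z) = l z v + l (h∞ z + F (φ z)) = l (φ z + F (φ z)) = l f (φ z)`.
-/

namespace FTP

open Metric Set Filter Topology

theorem K1 {n : ℕ} {f g : E n → E n} {r C : ℝ} (h : Grm f g r C) {l : ℝ} (hl0 : 0 < l) (hl1 : l < 1)
    (v : E n) : ∃ s > 0, ∃ φ : ℂ → E n, Koe f r l v s φ := by
  have hA : 0 < ‖v‖ + 1 := by positivity
  have hCp := h.C_pos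
  have hrp := h.r_pos
  have h1l : 0 < 1 - l := by linarith
  obtain ⟨A, hAdef⟩ : ∃ A : ℝ, A = ‖v‖ + 1 := ⟨_, rfl⟩
  rw [← hAdef] at hA
  obtain ⟨M, hMdef⟩ : ∃ M : ℝ, M = C * A ^ 2 / (1 - l) := ⟨_, rfl⟩
  have hM : 0 < M := by rw [hMdef]; positivity
  have hM1 : l * M + C * A ^ 2 = M := by
    have h1 : M * (1 - l) = C * A ^ 2 := by
      rw [hMdef, div_mul_cancel₀ _ h1l.ne']
    linarith
  obtain ⟨s, hsdef⟩ : ∃ s : ℝ, s = min (1 / M) (min (r / A) ((1 - l) / (2 * (C * A)))) := ⟨_, rfl⟩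
  have hs : 0 < s := by
    rw [hsdef]
    exact lt_min (by positivity) (lt_min (by positivity) (by positivity))
  have hs1 : M * s ≤ 1 := by
    have h1 : s ≤ 1 / M := by rw [hsdef]; exact min_le_left _ _
    have h2 := mul_le_mul_of_nonneg_left h1 hM.le
    rwa [mul_one_div_cancel hM.ne'] at h2
  have hs4 : s * A ≤ r := by
    have h1 : s ≤ r / A := by rw [hsdef]; exact (min_le_right _ _).trans (min_le_left _ _)
    exact (le_div_iff₀ hA).1 h1
  have hs2 : s * A < 8 * r := by linarith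
  have hs3 : C * (s * A) ≤ (1 - l) / 2 := by
    have h1 : s ≤ (1 - l) / (2 * (C * A)) := by
      rw [hsdef]; exact (min_le_right _ _).trans (min_le_right _ _)
    rw [le_div_iff₀ (by positivity)] at h1
    nlinarith
  obtain ⟨hk1, hk2⟩ := K1a h hl0 hl1 (v := v) (M := M) (s := s) hM (by rw [← hAdef]; exact hM1.le) hs hs1
    (by rw [← hAdef]; exact hs2) (by rw [← hAdef]; exact hs3)
  obtain ⟨q, hqdef⟩ : ∃ q : ℝ, q = (1 + l) / 2 := ⟨_, rfl⟩
  have hq0 : 0 ≤ q := by rw [hqdef]; linarith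
  have hq1 : q < 1 := by rw [hqdef]; linarith
  rw [← hqdef] at hk2
  have hdist : ∀ z ∈ ball (0 : ℂ) s, ∀ k : ℕ, dist (H f l v k z) (H f l v (k + 1) z) ≤
      (M * ‖z‖ ^ 2) * q ^ k := by
    intro z hz k
    rw [dist_comm, dist_eq_norm]
    refine (hk2 k z hz).trans (le_of_eq ?_)
    ring
  have hex : ∀ z ∈ ball (0 : ℂ) s, ∃ L : E n, Tendsto (fun k => H f l v k z) atTop (𝓝 L) := by
    intro z hz
    exact cauchySeq_tendsto_of_complete (cauchySeq_of_le_geometric q _ hq1 (hdist z hz))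
  choose! L hL using hex
  have htail : ∀ z ∈ ball (0 : ℂ) s, ∀ k : ℕ, dist (H f l v k z) (L z) ≤
      (M * ‖z‖ ^ 2) * q ^ k / (1 - q) := by
    intro z hz k
    exact dist_le_of_le_geometric_of_tendsto q _ hq1 (hdist z hz) (hL z hz) k
  have hunif : TendstoUniformlyOn (fun k => H f l v k) L atTop (ball (0 : ℂ) s) := by
    rw [Metric.tendstoUniformlyOn_iff]
    intro ε hε
    have h1 : Tendsto (fun k : ℕ => (M * s ^ 2) * q ^ k / (1 - q)) atTop (𝓝 0) := by
      have h2 := ((tendsto_pow_atTop_nhds_zero_of_lt_one hq0 hq1).const_mul (M * s ^ 2)).div_const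
        (1 - q)
      rwa [mul_zero, zero_div] at h2
    filter_upwards [h1.eventually (gt_mem_nhds hε)] with k hk z hz
    rw [dist_comm]
    refine lt_of_le_of_lt ((htail z hz k).trans ?_) hk
    have h3 : ‖z‖ < s := by rwa [mem_ball_zero_iff] at hz
    have h4 : 0 < 1 - q := by linarith
    have h5 : ‖z‖ ^ 2 ≤ s ^ 2 := pow_le_pow_left₀ (norm_nonneg _) h3.le 2
    have h6 : 0 ≤ q ^ k := pow_nonneg hq0 k
    gcongr
  have hLd : DifferentiableOn ℂ L (ball (0 : ℂ) s) :=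
    hunif.tendstoLocallyUniformlyOn.differentiableOn
      (Eventually.of_forall fun k => (hk1 k).1) isOpen_ball
  have hLb : ∀ z ∈ ball (0 : ℂ) s, ‖L z‖ ≤ M * ‖z‖ ^ 2 := by
    intro z hz
    exact le_of_tendsto (hL z hz).norm (Eventually.of_forall fun k => (hk1 k).2 z hz)
  -- norms of the points
  have hnorm : ∀ z ∈ ball (0 : ℂ) s, ∀ w : E n, ‖w‖ ≤ M * ‖z‖ ^ 2 → ‖z • v + w‖ ≤ ‖z‖ * A := by
    intro z hz w hw
    have h3 : ‖z‖ < s := by rwa [mem_ball_zero_iff] at hz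
    have h4 : ‖z • v + w‖ ≤ ‖z‖ * ‖v‖ + M * ‖z‖ ^ 2 := by
      refine (norm_add_le _ _).trans ?_
      rw [norm_smul]
      linarith
    have h5 : M * ‖z‖ ≤ 1 := by
      have h6 := mul_le_mul_of_nonneg_left h3.le hM.le
      linarith
    have h7 : M * ‖z‖ ^ 2 ≤ ‖z‖ := by
      have h8 := mul_le_mul_of_nonneg_right h5 (norm_nonneg z)
      nlinarith
    rw [hAdef]
    linarith
  have hnorm2 : ∀ z ∈ ball (0 : ℂ) s, ∀ w : E n, ‖w‖ ≤ M * ‖z‖ ^ 2 → ‖z • v + w‖ ≤ r := by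
    intro z hz w hw
    have h3 : ‖z‖ < s := by rwa [mem_ball_zero_iff] at hz
    have h4 := mul_le_mul_of_nonneg_right h3.le hA.le
    linarith [hnorm z hz w hw]
  have hlz : ∀ z ∈ ball (0 : ℂ) s, (l : ℂ) * z ∈ ball (0 : ℂ) s := by
    intro z hz
    rw [mem_ball_zero_iff] at hz ⊢
    rw [norm_mul, Complex.norm_real, Real.norm_of_nonneg hl0.le]
    have := norm_nonneg z
    nlinarith
  -- the functional equation
  have hfun : ∀ z ∈ ball (0 : ℂ) s, L z = (l : ℂ)⁻¹ • L ((l : ℂ) * z) -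
      (f (z • v + L z) - (z • v + L z)) := by
    intro z hz
    have h1 : Tendsto (fun k => H f l v (k + 1) z) atTop (𝓝 (L z)) :=
      (tendsto_add_atTop_iff_nat 1).2 (hL z hz)
    have h2 : Tendsto (fun k => z • v + H f l v k z) atTop (𝓝 (z • v + L z)) :=
      tendsto_const_nhds.add (hL z hz)
    have hcont : ContinuousAt f (z • v + L z) := by
      refine (h.diff.differentiableAt (isOpen_ball.mem_nhds ?_)).continuousAt
      rw [mem_ball_zero_iff]
      linarith [hnorm2 z hz _ (hLb z hz)]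
    have h3 : Tendsto (fun k => f (z • v + H f l v k z)) atTop (𝓝 (f (z • v + L z))) :=
      hcont.tendsto.comp h2
    have h4 : Tendsto (fun k => (l : ℂ)⁻¹ • H f l v k ((l : ℂ) * z)) atTop
        (𝓝 ((l : ℂ)⁻¹ • L ((l : ℂ) * z))) := (hL _ (hlz z hz)).const_smul _
    have h5 := h4.sub (h3.sub h2)
    exact tendsto_nhds_unique h1 h5
  have hL0 : L 0 = 0 := by
    have h1 := hLb 0 (mem_ball_self hs)
    rw [norm_zero] at h1
    have h2 : ‖L 0‖ ≤ 0 := by
      refine h1.trans (le_of_eq ?_)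
      ring
    exact norm_le_zero_iff.1 h2
  refine ⟨s, hs, fun z => z • v + L z, ?_, ?_, ?_, ?_, ?_⟩
  · exact ((differentiable_id.smul_const v).differentiableOn).add hLd
  · show (0 : ℂ) • v + L 0 = 0
    rw [hL0, zero_smul, add_zero]
  · have h1 : HasDerivAt L 0 0 := by
      rw [hasDerivAt_iff_isLittleO]
      rw [Asymptotics.isLittleO_iff]
      intro c hc
      have h2 : ball (0 : ℂ) (min s (c / M)) ∈ 𝓝 (0 : ℂ) :=
        ball_mem_nhds _ (lt_min hs (by positivity))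
      filter_upwards [h2] with x hx
      rw [mem_ball_zero_iff] at hx
      have h3 : ‖x‖ < s := lt_of_lt_of_le hx (min_le_left _ _)
      have h4 : ‖x‖ < c / M := lt_of_lt_of_le hx (min_le_right _ _)
      rw [hL0, smul_zero, sub_zero, sub_zero, sub_zero]
      refine (hLb x (by rwa [mem_ball_zero_iff])).trans ?_
      have h5 : M * ‖x‖ ≤ c := by
        rw [lt_div_iff₀ hM] at h4
        linarith
      have h6 := mul_le_mul_of_nonneg_right h5 (norm_nonneg x)
      nlinarith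
    have h2 : HasDerivAt (fun z : ℂ => z • v) v 0 := by
      have h3 := (hasDerivAt_id (0 : ℂ)).smul_const v
      rw [one_smul] at h3
      exact h3
    have h3 := h2.add h1
    rw [add_zero] at h3
    exact h3
  · intro z hz
    exact hnorm2 z hz _ (hLb z hz)
  · intro z hz
    show ((l : ℂ) * z) • v + L ((l : ℂ) * z) = (l : ℂ) • f (z • v + L z)
    have hlne : (l : ℂ) ≠ 0 := Complex.ofReal_ne_zero.2 hl0.ne'
    have h1 := hfun z hz
    have h2 : (l : ℂ) • L z = L ((l : ℂ) * z) - (l : ℂ) • (f (z • v + L z) - (z • v + L z)) := by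
      conv_lhs => rw [h1]
      rw [smul_sub, smul_smul, mul_inv_cancel₀ hlne, one_smul]
    have h3 : L ((l : ℂ) * z) = (l : ℂ) • L z + (l : ℂ) • (f (z • v + L z) - (z • v + L z)) := by
      rw [h2]; abel
    rw [h3, smul_sub, smul_add, mul_smul]
    abel

end FTP
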