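import Pool.Agent.MP_693ed2_an.FTP.Defs

/-!
# FTP row K1a: the iteration for the Koenigs curve is well defined, with bounds

Hypotheses on the constants: `0 < l < 1`, `A = ‖v‖ + 1`, `M > 0` with `l M + C A² ≤ M`,
`0 < s`, `M s ≤ 1`, `s A < 8 r`, `C (s A) ≤ (1 - l)/2`.
Write `F w = f w - w`, so `H (k+1) z = l⁻¹ • H k (l z) - F (z v + H k z)`.

Proof of the first part, by induction on `k`: `H 0 = 0`.  If `‖H k z‖ ≤ M ‖z‖²` on `ball 0 s` then for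
`z` in the ball `‖z v + H k z‖ ≤ ‖z‖ ‖v‖ + M ‖z‖² ≤ ‖z‖ A` (`M ‖z‖ ≤ M s ≤ 1`) `≤ s A < 8 r`, so `F` is
differentiable there and `‖F (z v + H k z)‖ ≤ C (A ‖z‖)²` (`h.quad`), and `‖l z‖ = l ‖z‖ < s`, so
`‖H (k+1) z‖ ≤ l⁻¹ M l² ‖z‖² + C A² ‖z‖² = (l M + C A²) ‖z‖² ≤ M ‖z‖²`.
Second part, by induction on `k`: `k = 0`: `H 1 - H 0 = H 1`, norm `≤ M ‖z‖²`.
`k → k+1`: `H (k+2) z - H (k+1) z = l⁻¹ • (H (k+1) (l z) - H k (l z)) - (F (z v + H (k+1) z) - F (z v + H k z))`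
has norm `≤ l q^k M ‖z‖² + C (s A) ‖H (k+1) z - H k z‖ ≤ (l + (1-l)/2) q^k M ‖z‖²`, `q = (1+l)/2`
(`h.lip` with `ρ = s A`; the points `z v + H k z`, `z v + H (k+1) z` lie in `ball 0 (s A)`: their norm is
`≤ A ‖z‖ < A s`).
-/

namespace FTP

open Metric Set Filter Topology

theorem K1a {n : ℕ} {f g : E n → E n} {r C : ℝ} (h : Grm f g r C) {l : ℝ} (hl0 : 0 < l) (hl1 : l < 1)
    {v : E n} {M s : ℝ} (hM : 0 < M) (hM1 : l * M + C * (‖v‖ + 1) ^ 2 ≤ M) (hs : 0 < s)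
    (hs1 : M * s ≤ 1) (hs2 : s * (‖v‖ + 1) < 8 * r) (hs3 : C * (s * (‖v‖ + 1)) ≤ (1 - l) / 2) :
    (∀ k : ℕ, DifferentiableOn ℂ (H f l v k) (ball 0 s) ∧
      ∀ z ∈ ball (0 : ℂ) s, ‖H f l v k z‖ ≤ M * ‖z‖ ^ 2) ∧
    ∀ k : ℕ, ∀ z ∈ ball (0 : ℂ) s,
      ‖H f l v (k + 1) z - H f l v k z‖ ≤ ((1 + l) / 2) ^ k * M * ‖z‖ ^ 2 := by
  set A : ℝ := ‖v‖ + 1 with hA
  have hA1 : 1 ≤ A := by
    have := norm_nonneg v
    linarith
  have hC := h.C_pos
  have hlc : (l : ℂ) ≠ 0 := by exact_mod_cast hl0.ne'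
  have hnl : ‖(l : ℂ)‖ = l := by rw [Complex.norm_real, Real.norm_eq_abs, abs_of_pos hl0]
  have hnli : ‖(l : ℂ)⁻¹‖ = l⁻¹ := by rw [norm_inv, hnl]
  have hlz : ∀ z ∈ ball (0 : ℂ) s, (l : ℂ) * z ∈ ball (0 : ℂ) s := by
    intro z hz
    rw [mem_ball_zero_iff] at hz ⊢
    rw [norm_mul, hnl]
    nlinarith [norm_nonneg z]
  have hpt : ∀ k, (∀ z ∈ ball (0 : ℂ) s, ‖H f l v k z‖ ≤ M * ‖z‖ ^ 2) →
      ∀ z ∈ ball (0 : ℂ) s, ‖z • v + H f l v k z‖ ≤ A * ‖z‖ := by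
    intro k hk z hz
    have h1 := hk z hz
    have hz' : ‖z‖ < s := mem_ball_zero_iff.1 hz
    have h2 : M * ‖z‖ ≤ 1 := le_trans (mul_le_mul_of_nonneg_left hz'.le hM.le) hs1
    have h3 : M * ‖z‖ ^ 2 ≤ ‖z‖ := by
      have := mul_le_mul_of_nonneg_right h2 (norm_nonneg z)
      nlinarith
    calc ‖z • v + H f l v k z‖ ≤ ‖z • v‖ + ‖H f l v k z‖ := norm_add_le _ _
      _ ≤ ‖z‖ * ‖v‖ + ‖z‖ := by
        rw [norm_smul]
        linarith
      _ = A * ‖z‖ := by rw [hA]; ring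
  have hbs : ∀ z ∈ ball (0 : ℂ) s, A * ‖z‖ < s * A := by
    intro z hz
    have hz' : ‖z‖ < s := mem_ball_zero_iff.1 hz
    nlinarith
  have first : ∀ k : ℕ, DifferentiableOn ℂ (H f l v k) (ball 0 s) ∧
      ∀ z ∈ ball (0 : ℂ) s, ‖H f l v k z‖ ≤ M * ‖z‖ ^ 2 := by
    intro k
    induction k with
    | zero =>
      refine ⟨differentiableOn_const _, fun z _ => ?_⟩
      show ‖(0 : E n)‖ ≤ _
      rw [norm_zero]
      positivity
    | succ k ih =>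
      have hp := hpt k ih.2
      have hd1 : DifferentiableOn ℂ (fun z : ℂ => H f l v k ((l : ℂ) * z)) (ball 0 s) :=
        ih.1.comp (by fun_prop) hlz
      have hd2 : DifferentiableOn ℂ (fun z : ℂ => z • v + H f l v k z) (ball 0 s) := by
        refine DifferentiableOn.add ?_ ih.1
        fun_prop
      have hd3 : DifferentiableOn ℂ (fun z : ℂ => f (z • v + H f l v k z)) (ball 0 s) := by
        refine h.diff.comp hd2 ?_
        intro z hz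
        rw [mem_ball_zero_iff]
        exact lt_of_le_of_lt (hp z hz) (lt_trans (hbs z hz) hs2)
      refine ⟨?_, ?_⟩
      · exact ((hd1.const_smul (l : ℂ)⁻¹)).sub (hd3.sub hd2)
      · intro z hz
        have hq := h.quad (z • v + H f l v k z) (by
          rw [mem_ball_zero_iff]
          exact lt_of_le_of_lt (hp z hz) (lt_trans (hbs z hz) hs2))
        have h1 := ih.2 _ (hlz z hz)
        rw [norm_mul, hnl] at h1
        have h2 : ‖(l : ℂ)⁻¹ • H f l v k ((l : ℂ) * z)‖ ≤ l * M * ‖z‖ ^ 2 := by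
          rw [norm_smul, hnli]
          calc l⁻¹ * ‖H f l v k ((l : ℂ) * z)‖ ≤ l⁻¹ * (M * (l * ‖z‖) ^ 2) :=
                mul_le_mul_of_nonneg_left h1 (by positivity)
            _ = l * M * ‖z‖ ^ 2 := by
                field_simp
        have h3 : ‖f (z • v + H f l v k z) - (z • v + H f l v k z)‖ ≤ C * A ^ 2 * ‖z‖ ^ 2 := by
          refine le_trans hq ?_
          have h4 : ‖z • v + H f l v k z‖ ^ 2 ≤ (A * ‖z‖) ^ 2 :=
            pow_le_pow_left₀ (norm_nonneg _) (hp z hz) 2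
          calc C * ‖z • v + H f l v k z‖ ^ 2 ≤ C * (A * ‖z‖) ^ 2 :=
                mul_le_mul_of_nonneg_left h4 hC.le
            _ = C * A ^ 2 * ‖z‖ ^ 2 := by ring
        show ‖(l : ℂ)⁻¹ • H f l v k ((l : ℂ) * z) -
          (f (z • v + H f l v k z) - (z • v + H f l v k z))‖ ≤ _
        calc _ ≤ ‖(l : ℂ)⁻¹ • H f l v k ((l : ℂ) * z)‖ +
            ‖f (z • v + H f l v k z) - (z • v + H f l v k z)‖ := norm_sub_le _ _
          _ ≤ l * M * ‖z‖ ^ 2 + C * A ^ 2 * ‖z‖ ^ 2 := add_le_add h2 h3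
          _ = (l * M + C * A ^ 2) * ‖z‖ ^ 2 := by ring
          _ ≤ M * ‖z‖ ^ 2 := mul_le_mul_of_nonneg_right hM1 (by positivity)
  refine ⟨first, ?_⟩
  intro k
  induction k with
  | zero =>
    intro z hz
    have h1 := (first 1).2 z hz
    show ‖H f l v 1 z - 0‖ ≤ _
    rw [sub_zero, pow_zero, one_mul]
    exact h1
  | succ k ih =>
    intro z hz
    set x := H f l v k z with hx
    set y := H f l v (k + 1) z with hy
    have e1 : H f l v (k + 1 + 1) z - H f l v (k + 1) z =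
        (l : ℂ)⁻¹ • (H f l v (k + 1) ((l : ℂ) * z) - H f l v k ((l : ℂ) * z)) -
          ((f (z • v + y) - (z • v + y)) - (f (z • v + x) - (z • v + x))) := by
      have e2 : H f l v (k + 1 + 1) z = (l : ℂ)⁻¹ • H f l v (k + 1) ((l : ℂ) * z) -
          (f (z • v + y) - (z • v + y)) := rfl
      have e3 : H f l v (k + 1) z = (l : ℂ)⁻¹ • H f l v k ((l : ℂ) * z) -
          (f (z • v + x) - (z • v + x)) := rfl
      rw [e2, e3, smul_sub]
      abel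
    have hz' : ‖z‖ < s := mem_ball_zero_iff.1 hz
    have hsA : 0 < s * A := by positivity
    have h1 := ih _ (hlz z hz)
    rw [norm_mul, hnl] at h1
    have h2 : ‖(l : ℂ)⁻¹ • (H f l v (k + 1) ((l : ℂ) * z) - H f l v k ((l : ℂ) * z))‖ ≤
        l * (((1 + l) / 2) ^ k * M * ‖z‖ ^ 2) := by
      rw [norm_smul, hnli]
      calc l⁻¹ * ‖H f l v (k + 1) ((l : ℂ) * z) - H f l v k ((l : ℂ) * z)‖
          ≤ l⁻¹ * (((1 + l) / 2) ^ k * M * (l * ‖z‖) ^ 2) :=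
            mul_le_mul_of_nonneg_left h1 (by positivity)
        _ = l * (((1 + l) / 2) ^ k * M * ‖z‖ ^ 2) := by
            field_simp
    have hmx : z • v + x ∈ ball (0 : E n) (s * A) := by
      rw [mem_ball_zero_iff]
      exact lt_of_le_of_lt (hpt k (first k).2 z hz) (hbs z hz)
    have hmy : z • v + y ∈ ball (0 : E n) (s * A) := by
      rw [mem_ball_zero_iff]
      exact lt_of_le_of_lt (hpt (k + 1) (first (k + 1)).2 z hz) (hbs z hz)
    have h3 := h.lip (s * A) hsA hs2.le _ hmy _ hmx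
    have e4 : z • v + y - (z • v + x) = y - x := by abel
    rw [e4] at h3
    have h5 : ‖y - x‖ ≤ ((1 + l) / 2) ^ k * M * ‖z‖ ^ 2 := ih z hz
    rw [e1]
    have h6 : C * (s * A) * ‖y - x‖ ≤ (1 - l) / 2 * (((1 + l) / 2) ^ k * M * ‖z‖ ^ 2) :=
      mul_le_mul hs3 h5 (norm_nonneg _) (by linarith)
    calc _ ≤ ‖(l : ℂ)⁻¹ • (H f l v (k + 1) ((l : ℂ) * z) - H f l v k ((l : ℂ) * z))‖ +
        ‖(f (z • v + y) - (z • v + y)) - (f (z • v + x) - (z • v + x))‖ := norm_sub_le _ _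
      _ ≤ l * (((1 + l) / 2) ^ k * M * ‖z‖ ^ 2) +
          (1 - l) / 2 * (((1 + l) / 2) ^ k * M * ‖z‖ ^ 2) := by linarith
      _ = ((1 + l) / 2) ^ (k + 1) * M * ‖z‖ ^ 2 := by ring

end FTP
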