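import Pool.Agent.MP_693ed2_an.FTP.Defs

/-!
# FTP row K2a: radius bound and extension of Koenigs curves

Proof of `Koe_le`: for `0 < ρ' < ρ` Cauchy's estimate on the circle of radius `ρ'`
(`Complex.norm_deriv_le_of_forall_mem_sphere_norm_le`) gives `1 = ‖v‖ ≤ r / ρ'`, i.e. `ρ' ≤ r`; let
`ρ' → ρ` (`le_of_forall_lt...`).
Proof of `Koe_ext`: let `φ' z = g (l⁻¹ • φ (l z))` for `z ∈ ball 0 (ρ / l)`.  For such `z`, `‖l z‖ < ρ` and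
`‖l⁻¹ • φ (l z)‖ ≤ r / l ≤ 2 r < 4 r`, so `φ'` is differentiable on `ball 0 (ρ/l)` (`h.gdiff`, chain rule)
and `f (φ' z) = l⁻¹ • φ (l z)` (`h.fg`).  On `ball 0 ρ`, `φ' = φ`: `l⁻¹ • φ (l z) = f (φ z)` and
`g (f (φ z)) = φ z` as `‖φ z‖ ≤ r` (`h.gf`).  If `‖φ' z‖ ≤ r` for all `z ∈ ball 0 (ρ / l)` then `φ'` is a
`Koe` on `ball 0 (ρ/l)`: `zero`, `deriv` since `φ' = φ` near `0` (`ball 0 ρ` is a neighbourhood of `0`;
`HasDerivAt.congr_of_eventuallyEq`), `eqn`: for `z ∈ ball 0 (ρ/l)`: `l z ∈ ball 0 ρ`, so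
`φ' (l z) = φ (l z) = l • f (φ' z)`.
So if there is no `Koe` on `ball 0 (ρ/l)` there is `z₁ ∈ ball 0 (ρ/l)` with `‖φ' z₁‖ > r`.  Put
`z₀ = l z₁ ∈ ball 0 ρ`, `y = φ' z₁`: `r < ‖y‖ < 8 r`, `f y = l⁻¹ • φ z₀`, so
`‖φ z₀‖ = l ‖f y‖ ≥ (1/2) (‖y‖ - C ‖y‖²) ≥ (1/2) (3/4) ‖y‖ ≥ (3/8) r ≥ r / 4`
(`h.quad`, `C ‖y‖ ≤ C (8 r) ≤ 1/4`).
-/

namespace FTP

open Metric Set Filter Topology

theorem Koe_le {n : ℕ} {f g : E n → E n} {r C : ℝ} (h : Grm f g r C) {l : ℝ} {v : E n} (hv : ‖v‖ = 1)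
    {ρ : ℝ} (hρ : 0 < ρ) {φ : ℂ → E n} (hφ : Koe f r l v ρ φ) : ρ ≤ r := by
  by_contra hlt
  push Not at hlt
  have hr := h.r_pos
  obtain ⟨ρ', h1, h2⟩ := exists_between hlt
  have hρ' : 0 < ρ' := by linarith
  have hdc : DiffContOnCl ℂ φ (ball 0 ρ') :=
    hφ.diff.diffContOnCl_ball (closedBall_subset_ball h2)
  have h3 : ‖deriv φ 0‖ ≤ r / ρ' := by
    apply Complex.norm_deriv_le_of_forall_mem_sphere_norm_le hρ' hdc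
    intro z hz
    apply hφ.bound
    rw [mem_ball_zero_iff, mem_sphere_zero_iff_norm.1 hz]
    exact h2
  rw [hφ.deriv.deriv, hv] at h3
  rw [le_div_iff₀ hρ'] at h3
  linarith

theorem Koe_ext {n : ℕ} {f g : E n → E n} {r C : ℝ} (h : Grm f g r C) {l : ℝ} (hl : 1 / 2 ≤ l)
    (hl1 : l < 1) {v : E n} {ρ : ℝ} (hρ : 0 < ρ) {φ : ℂ → E n} (hφ : Koe f r l v ρ φ)
    (hno : ¬ ∃ φ' : ℂ → E n, Koe f r l v (ρ / l) φ') :
    ∃ z₀ ∈ ball (0 : ℂ) ρ, r / 4 ≤ ‖φ z₀‖ := by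
  have hl0 : 0 < l := by linarith
  have hr := h.r_pos
  have hlc : (l : ℂ) ≠ 0 := by exact_mod_cast hl0.ne'
  have hnl : ‖(l : ℂ)‖ = l := by rw [Complex.norm_real, Real.norm_eq_abs, abs_of_pos hl0]
  have hnli : ‖(l : ℂ)⁻¹‖ = l⁻¹ := by rw [norm_inv, hnl]
  have hli : l⁻¹ ≤ 2 := by
    rw [inv_le_comm₀ hl0 (by norm_num)]
    linarith
  have hin : ∀ z ∈ ball (0 : ℂ) (ρ / l), (l : ℂ) * z ∈ ball (0 : ℂ) ρ := by
    intro z hz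
    rw [mem_ball_zero_iff] at hz ⊢
    rw [norm_mul, hnl]
    rw [lt_div_iff₀ hl0] at hz
    linarith
  have hw : ∀ z ∈ ball (0 : ℂ) (ρ / l), (l : ℂ)⁻¹ • φ ((l : ℂ) * z) ∈ ball (0 : E n) (4 * r) := by
    intro z hz
    rw [mem_ball_zero_iff, norm_smul, hnli]
    have h1 := hφ.bound _ (hin z hz)
    have h2 : l⁻¹ * ‖φ ((l : ℂ) * z)‖ ≤ 2 * r := by
      apply mul_le_mul hli h1 (norm_nonneg _) (by norm_num)
    linarith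
  set φ' : ℂ → E n := fun z => g ((l : ℂ)⁻¹ • φ ((l : ℂ) * z)) with hφ'
  have hd : DifferentiableOn ℂ φ' (ball 0 (ρ / l)) := by
    have h1 : DifferentiableOn ℂ (fun z : ℂ => φ ((l : ℂ) * z)) (ball 0 (ρ / l)) :=
      hφ.diff.comp (by fun_prop) hin
    exact h.gdiff.comp (h1.const_smul (l : ℂ)⁻¹) hw
  have hff : ∀ z ∈ ball (0 : ℂ) (ρ / l), ‖φ' z‖ < 8 * r ∧
      f (φ' z) = (l : ℂ)⁻¹ • φ ((l : ℂ) * z) := fun z hz => h.fg _ (hw z hz)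
  have heq : ∀ z ∈ ball (0 : ℂ) ρ, φ' z = φ z := by
    intro z hz
    have h1 : (l : ℂ)⁻¹ • φ ((l : ℂ) * z) = f (φ z) := by
      rw [hφ.eqn z hz, inv_smul_smul₀ hlc]
    show g ((l : ℂ)⁻¹ • φ ((l : ℂ) * z)) = φ z
    rw [h1]
    exact h.gf _ (hφ.bound z hz)
  by_cases hb : ∀ z ∈ ball (0 : ℂ) (ρ / l), ‖φ' z‖ ≤ r
  · exfalso
    apply hno
    refine ⟨φ', hd, ?_, ?_, hb, ?_⟩
    · rw [heq 0 (mem_ball_self hρ)]
      exact hφ.zero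
    · apply hφ.deriv.congr_of_eventuallyEq
      filter_upwards [ball_mem_nhds (0 : ℂ) hρ] with z hz
      exact heq z hz
    · intro z hz
      rw [(hff z hz).2, smul_inv_smul₀ hlc]
      exact heq _ (hin z hz)
  · push Not at hb
    obtain ⟨z₁, hz₁, hy⟩ := hb
    refine ⟨(l : ℂ) * z₁, hin z₁ hz₁, ?_⟩
    obtain ⟨h1, h2⟩ := hff z₁ hz₁
    set y := φ' z₁ with hyd
    have h3 : φ ((l : ℂ) * z₁) = (l : ℂ) • f y := by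
      rw [h2, smul_inv_smul₀ hlc]
    have h4 := h.quad y (mem_ball_zero_iff.2 h1)
    have h5 : C * ‖y‖ ≤ 1 / 4 := by
      have h6 : C * ‖y‖ ≤ C * (8 * r) := mul_le_mul_of_nonneg_left h1.le h.C_pos.le
      linarith [h.small]
    have h7 : ‖y‖ ≤ ‖f y‖ + ‖f y - y‖ := by
      have := norm_sub_le (f y) (f y - y)
      rw [sub_sub_cancel] at this
      exact this
    have h8 : C * ‖y‖ ^ 2 ≤ 1 / 4 * ‖y‖ := by
      have := mul_le_mul_of_nonneg_right h5 (norm_nonneg y)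
      nlinarith
    rw [h3, norm_smul, hnl]
    have h9 : 3 / 4 * r ≤ ‖f y‖ := by linarith
    nlinarith [norm_nonneg (f y)]

end FTP
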