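import Pool.Agent.MP_693ed2_an.FTP.K1
import Pool.Agent.MP_693ed2_an.FTP.K2a

/-!
# FTP row K2: Koenigs curves of the contractions `exp (-ε) • f` which reach the radius `r / 4`

Proof of `K2`.  Let `v` be a unit vector (`n > 0`: e.g. `EuclideanSpace.single ⟨0, hn⟩ 1`,
`EuclideanSpace.norm_single`) and let `s, φ₀` be given by `K1`.  If for every `k : ℕ` there were a `Koe` on
`ball 0 (s / l^k)`, `Koe_le` would give `s / l^k ≤ r` for all `k`, impossible as `l^k → 0`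
(`tendsto_pow_atTop_nhds_zero_of_lt_one`).  So there is a smallest `k` without (`Nat.find`), `k ≠ 0` by `K1`
(`s / l^0 = s`); put `ρ = s / l^(k-1)`: there is a `Koe` on `ball 0 ρ`, none on `ball 0 (ρ / l)`; apply
`Koe_ext`.

Proof of `K3`.  `l = exp (-ε)`; `l < 1`, `l ≥ 1 - ε ≥ 1/2` (`Real.add_one_le_exp`).  Take `ρ, φ, z₀` from
`K2` and put `ψ t = φ (z₀ * exp (-ε t))`.  For `Re t ≥ 0`: `‖z₀ exp (-ε t)‖ = ‖z₀‖ exp (-ε Re t) ≤ ‖z₀‖ < ρ`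
(`Complex.norm_exp`).  `ψ (t + 1) = φ (l * (z₀ exp (-ε t))) = l • f (ψ t)`.  At `t = 1` (use
`hφ.eqn` at `z₀`): `‖ψ 1‖ = ‖φ (l z₀)‖ = l ‖f (φ z₀)‖ ≥ (1/2) (3/4) ‖φ z₀‖ ≥ (3/8) (r/4) ≥ r / 16`
(`h.quad` at `φ z₀`, whose norm is `≤ r`: `‖f y‖ ≥ ‖y‖ - C ‖y‖² ≥ (3/4) ‖y‖`).
-/

namespace FTP

open Metric Set Filter Topology

theorem K2 {n : ℕ} {f g : E n → E n} {r C : ℝ} (h : Grm f g r C) (hn : 0 < n) {l : ℝ} (hl : 1 / 2 ≤ l)
    (hl1 : l < 1) : ∃ (v : E n) (ρ : ℝ) (φ : ℂ → E n) (z₀ : ℂ), 0 < ρ ∧ Koe f r l v ρ φ ∧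
      z₀ ∈ ball (0 : ℂ) ρ ∧ r / 4 ≤ ‖φ z₀‖ := by
  obtain ⟨v, hv⟩ : ∃ v : E n, ‖v‖ = 1 := by
    refine ⟨EuclideanSpace.single (⟨0, hn⟩ : Fin n) (1 : ℂ), ?_⟩
    rw [EuclideanSpace.norm_single, norm_one]
  have hl0 : 0 < l := by linarith
  obtain ⟨s, hs, φ₀, hφ₀⟩ := K1 h hl0 hl1 v
  have hr := h.r_pos
  have hex : ∃ k : ℕ, ¬ ∃ φ : ℂ → E n, Koe f r l v (s / l ^ k) φ := by
    by_contra hcon
    push Not at hcon
    obtain ⟨k, hk⟩ := exists_pow_lt_of_lt_one (show 0 < s / r from div_pos hs hr) hl1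
    obtain ⟨φ, hφ⟩ := hcon k
    have hlk : 0 < l ^ k := pow_pos hl0 k
    have h1 := Koe_le h hv (div_pos hs hlk) hφ
    rw [div_le_iff₀ hlk] at h1
    rw [lt_div_iff₀ hr] at hk
    linarith [mul_comm r (l ^ k)]
  classical
  obtain ⟨k, hk, hmin⟩ : ∃ k : ℕ, (¬ ∃ φ : ℂ → E n, Koe f r l v (s / l ^ k) φ) ∧
      ∀ j < k, ∃ φ : ℂ → E n, Koe f r l v (s / l ^ j) φ := by
    refine ⟨Nat.find hex, Nat.find_spec hex, fun j hj => ?_⟩
    exact not_not.1 (Nat.find_min hex hj)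
  cases k with
  | zero =>
    exfalso
    apply hk
    refine ⟨φ₀, ?_⟩
    rw [pow_zero, div_one]
    exact hφ₀
  | succ j =>
    obtain ⟨φ, hφ⟩ := hmin j (Nat.lt_succ_self j)
    have hρ : 0 < s / l ^ j := div_pos hs (pow_pos hl0 j)
    have hno : ¬ ∃ φ' : ℂ → E n, Koe f r l v (s / l ^ j / l) φ' := by
      rw [div_div, ← pow_succ]
      exact hk
    obtain ⟨z₀, hz₀, hz₁⟩ := Koe_ext h hl hl1 hρ hφ hno
    exact ⟨v, s / l ^ j, φ, z₀, hρ, hφ, hz₀, hz₁⟩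

theorem K3 {n : ℕ} {f g : E n → E n} {r C : ℝ} (h : Grm f g r C) (hn : 0 < n) {ε : ℝ} (hε : 0 < ε)
    (hε1 : ε ≤ 1 / 2) : ∃ ψ : ℂ → E n, DifferentiableOn ℂ ψ RH ∧ (∀ t ∈ RH, ‖ψ t‖ ≤ r) ∧
      (∀ t ∈ RH, ψ (t + 1) = (Real.exp (-ε) : ℂ) • f (ψ t)) ∧ r / 16 ≤ ‖ψ 1‖ := by
  have hl1 : Real.exp (-ε) < 1 := by
    rw [Real.exp_lt_one_iff]
    linarith
  have hl : 1 / 2 ≤ Real.exp (-ε) := by
    have := Real.add_one_le_exp (-ε)
    linarith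
  obtain ⟨v, ρ, φ, z₀, hρ, hφ, hz₀, hz₁⟩ := K2 h hn hl hl1
  have hr := h.r_pos
  have hC := h.C_pos
  have hmem : ∀ t ∈ RH, z₀ * Complex.exp (-(ε : ℂ) * t) ∈ ball (0 : ℂ) ρ := by
    intro t ht
    have ht' : 0 < t.re := ht
    rw [mem_ball_zero_iff, norm_mul, Complex.norm_exp]
    have e1 : (-(ε : ℂ) * t).re = -(ε * t.re) := by
      rw [neg_mul, Complex.neg_re, Complex.re_ofReal_mul]
    rw [e1]
    have h1 : Real.exp (-(ε * t.re)) ≤ 1 := Real.exp_le_one_iff.2 (by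
      have := mul_pos hε ht'
      linarith)
    have h2 : ‖z₀‖ < ρ := mem_ball_zero_iff.1 hz₀
    have h3 := mul_le_mul_of_nonneg_left h1 (norm_nonneg z₀)
    linarith
  have hexp : ((Real.exp (-ε) : ℝ) : ℂ) = Complex.exp (-(ε : ℂ)) := by
    rw [Complex.ofReal_exp, Complex.ofReal_neg]
  refine ⟨fun t => φ (z₀ * Complex.exp (-(ε : ℂ) * t)), ?_, ?_, ?_, ?_⟩
  · refine DifferentiableOn.comp (g := φ) (f := fun t : ℂ => z₀ * Complex.exp (-(ε : ℂ) * t)) hφ.diff ?_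
      (fun t ht => hmem t ht)
    fun_prop
  · intro t ht
    exact hφ.bound _ (hmem t ht)
  · intro t ht
    have h1 := hφ.eqn _ (hmem t ht)
    have h2 : z₀ * Complex.exp (-(ε : ℂ) * (t + 1)) =
        ((Real.exp (-ε) : ℝ) : ℂ) * (z₀ * Complex.exp (-(ε : ℂ) * t)) := by
      rw [hexp, mul_add, mul_one, Complex.exp_add]
      ring
    change φ (z₀ * Complex.exp (-(ε : ℂ) * (t + 1))) = _
    rw [h2]
    exact h1
  · have h1 := hφ.eqn _ hz₀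
    have h2 : z₀ * Complex.exp (-(ε : ℂ) * 1) = ((Real.exp (-ε) : ℝ) : ℂ) * z₀ := by
      rw [hexp, mul_one]
      ring
    change r / 16 ≤ ‖φ (z₀ * Complex.exp (-(ε : ℂ) * 1))‖
    rw [h2, h1, norm_smul, Complex.norm_real, Real.norm_of_nonneg (Real.exp_pos _).le]
    have hy := hφ.bound _ hz₀
    generalize φ z₀ = y at hy hz₁
    have h3 : ‖f y - y‖ ≤ C * ‖y‖ ^ 2 := h.quad y (by
      rw [mem_ball_zero_iff]
      linarith)
    have h4 : ‖y‖ ≤ ‖f y‖ + ‖f y - y‖ := by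
      have := norm_sub_le (f y) (f y - y)
      rw [sub_sub_cancel] at this
      exact this
    have h5 : C * ‖y‖ ^ 2 ≤ (1 / 4) * ‖y‖ := by
      have h6 : C * ‖y‖ ≤ 1 / 4 := by
        have h7 := mul_le_mul_of_nonneg_left hy hC.le
        have h8 := h.small
        have h9 : 0 < C * r := mul_pos hC hr
        linarith
      have h7 := mul_le_mul_of_nonneg_right h6 (norm_nonneg y)
      calc C * ‖y‖ ^ 2 = C * ‖y‖ * ‖y‖ := by ring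
        _ ≤ (1 / 4) * ‖y‖ := h7
    have h6 : (3 / 4) * ‖y‖ ≤ ‖f y‖ := by linarith
    have h7 : (1 / 2) * ‖f y‖ ≤ Real.exp (-ε) * ‖f y‖ := mul_le_mul_of_nonneg_right hl (norm_nonneg _)
    linarith

end FTP
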