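import Pool.Agent.MP_693ed2_an.FTP.MOa

/-!
# FTP row MO: Montel's theorem for curves in `C^n`

Proof.  Let `Q` be a countable dense subset of `ℂ` (`TopologicalSpace.exists_countable_dense ℂ`), intersected
with `U`, and take the subsequence `s` from `MOa`.
(a) Let `t₀ ∈ U`; choose `ρ > 0` with `closedBall t₀ (2 ρ) ⊆ U` (`U` open).  Claim: `ψ (s k)` is uniformly
Cauchy on `ball t₀ ρ`.  Let `ε > 0` and `δ = ε ρ / (4 (r + 1))` (`r ≥ 0` as `‖ψ‖ ≤ r`; if needed use `|r|`).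
`closedBall t₀ ρ` is compact: it is covered by finitely many balls `ball q δ`, `q ∈ Q ∩ ball t₀ ρ`
(or: `ball t₀ ρ` is totally bounded; for each of finitely many centres pick a point of `Q ∩ ball t₀ ρ` within
`δ`).  For `k, j` large all `‖ψ (s k) q - ψ (s j) q‖ < ε/3` for these finitely many `q`; for `t ∈ ball t₀ ρ`
take `q` with `‖t - q‖ < δ`: by `MOl` `‖ψ (s k) t - ψ (s k) q‖ ≤ (r/ρ) δ < ε / 3`.  So
`‖ψ (s k) t - ψ (s j) t‖ < ε`.
(b) Hence for every `t ∈ U` the sequence `ψ (s k) t` is Cauchy and converges; let `ψ' t` be its limit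
(choice; anything outside `U`).  By (a) the convergence is uniform on `ball t₀ ρ`
(`UniformCauchySeqOn.tendstoUniformlyOn_of_tendsto`), so `TendstoLocallyUniformlyOn` on `U`, and `ψ'` is
differentiable on `U` (`TendstoLocallyUniformlyOn.differentiableOn`).
(`TendstoLocallyUniformlyOn` is not needed in the conclusion.)
-/

namespace FTP

open Metric Set Filter Topology

/-- uniform Cauchy property near a point -/
theorem MO_cauchy {n : ℕ} {U D : Set ℂ} (hU : IsOpen U) (hD : Dense D) {r : ℝ} {ψ : ℕ → ℂ → E n}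
    (hd : ∀ k, DifferentiableOn ℂ (ψ k) U) (hb : ∀ k, ∀ t ∈ U, ‖ψ k t‖ ≤ r)
    (hc : ∀ t ∈ D ∩ U, ∃ L : E n, Tendsto (fun k => ψ k t) atTop (𝓝 L)) {t₀ : ℂ} (ht₀ : t₀ ∈ U) :
    ∃ ρ : ℝ, 0 < ρ ∧ UniformCauchySeqOn ψ atTop (ball t₀ ρ) := by
  obtain ⟨ρ₀, hρ₀, hsub⟩ := Metric.isOpen_iff.1 hU t₀ ht₀
  obtain ⟨ρ, hρ⟩ : ∃ ρ, ρ = ρ₀ / 8 := ⟨_, rfl⟩
  have hρ0 : 0 < ρ := by
    rw [hρ]
    positivity
  have hsub2 : closedBall t₀ (2 * (2 * ρ)) ⊆ U :=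
    (closedBall_subset_ball (by rw [hρ]; linarith)).trans hsub
  have hsub3 : ball t₀ (2 * ρ) ⊆ U :=
    (ball_subset_closedBall.trans (closedBall_subset_closedBall (by linarith))).trans hsub2
  refine ⟨ρ, hρ0, ?_⟩
  rw [Metric.uniformCauchySeqOn_iff]
  intro ε hε
  have hr' : 0 < |r| + 1 := by positivity
  have hb' : ∀ k, ∀ t ∈ U, ‖ψ k t‖ ≤ |r| + 1 := fun k t ht =>
    (hb k t ht).trans ((le_abs_self r).trans (by linarith))
  obtain ⟨δ, hδ⟩ : ∃ δ, δ = ε / 4 * (2 * ρ) / (|r| + 1) := ⟨_, rfl⟩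
  have hδ0 : 0 < δ := by
    rw [hδ]
    positivity
  have hδ2 : (|r| + 1) / (2 * ρ) * δ = ε / 4 := by
    rw [hδ]
    field_simp
  have hcover : closedBall t₀ ρ ⊆ ⋃ q ∈ D ∩ ball t₀ (2 * ρ), ball q δ := by
    intro x hx
    have hx2 : x ∈ ball t₀ (2 * ρ) := by
      rw [mem_closedBall] at hx
      rw [mem_ball]
      linarith
    obtain ⟨q, hq1, hq2⟩ := hD.inter_open_nonempty (ball x δ ∩ ball t₀ (2 * ρ))
      (isOpen_ball.inter isOpen_ball) ⟨x, mem_ball_self hδ0, hx2⟩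
    rw [mem_iUnion₂]
    exact ⟨q, ⟨hq2, hq1.2⟩, mem_ball_comm.1 hq1.1⟩
  obtain ⟨b', hb1, hb2, hb3⟩ := (isCompact_closedBall t₀ ρ).elim_finite_subcover_image
    (fun q _ => isOpen_ball) hcover
  have hev : ∀ᶠ N in (atTop : Filter ℕ), ∀ q ∈ b', ∀ m ≥ N, ∀ k ≥ N,
      dist (ψ m q) (ψ k q) < ε / 4 := by
    rw [Filter.eventually_all_finite hb2]
    intro q hq
    obtain ⟨L, hL⟩ := hc q ⟨(hb1 hq).1, hsub3 (hb1 hq).2⟩
    obtain ⟨N, hN⟩ := Metric.cauchySeq_iff.1 hL.cauchySeq (ε / 4) (by positivity)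
    filter_upwards [eventually_ge_atTop N] with N' hN' m hm k hk
    exact hN m (hN'.trans hm) k (hN'.trans hk)
  obtain ⟨N, hN⟩ := hev.exists
  refine ⟨N, fun m hm k hk t ht => ?_⟩
  obtain ⟨q, hq, htq⟩ := mem_iUnion₂.1 (hb3 (ball_subset_closedBall ht))
  have ht2 : t ∈ ball t₀ (2 * ρ) := ball_subset_ball (by linarith) ht
  have h1 : ∀ j, ‖ψ j t - ψ j q‖ ≤ ε / 4 := by
    intro j
    have h2 := MOl (hd j) (hb' j) (by positivity : 0 < 2 * ρ) hsub2 ht2 (hb1 hq).2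
    refine h2.trans ?_
    rw [← hδ2]
    rw [mem_ball, dist_eq_norm] at htq
    exact mul_le_mul_of_nonneg_left htq.le (by positivity)
  have h3 := hN q hq m hm k hk
  calc dist (ψ m t) (ψ k t) ≤ dist (ψ m t) (ψ m q) + dist (ψ m q) (ψ k q) + dist (ψ k q) (ψ k t) :=
        dist_triangle4 _ _ _ _
    _ < ε := by
        have h4 := h1 m
        have h5 := h1 k
        rw [← dist_eq_norm] at h4 h5
        rw [dist_comm (ψ k q)]
        linarith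

theorem MO {n : ℕ} {U : Set ℂ} (hU : IsOpen U) {r : ℝ} {ψ : ℕ → ℂ → E n}
    (hd : ∀ k, DifferentiableOn ℂ (ψ k) U) (hb : ∀ k, ∀ t ∈ U, ‖ψ k t‖ ≤ r) :
    ∃ (s : ℕ → ℕ) (ψ' : ℂ → E n), StrictMono s ∧ DifferentiableOn ℂ ψ' U ∧
      ∀ t ∈ U, Tendsto (fun k => ψ (s k) t) atTop (𝓝 (ψ' t)) := by
  obtain ⟨D, hDc, hD⟩ := TopologicalSpace.exists_countable_dense ℂ
  obtain ⟨s, hs, hsc⟩ := MOa (Q := D ∩ U) (hDc.mono inter_subset_left) (r := r) (ψ := ψ)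
    (fun k t ht => hb k t ht.2)
  have hloc := fun (t₀ : ℂ) (ht₀ : t₀ ∈ U) => MO_cauchy (ψ := fun k => ψ (s k)) hU hD
    (fun k => hd (s k)) (fun k => hb (s k)) hsc ht₀
  have hlim : ∀ t, ∃ L : E n, t ∈ U → Tendsto (fun k => ψ (s k) t) atTop (𝓝 L) := by
    intro t
    by_cases ht : t ∈ U
    · obtain ⟨ρ, hρ, hρ2⟩ := hloc t ht
      obtain ⟨L, hL⟩ := cauchySeq_tendsto_of_complete (hρ2.cauchySeq (mem_ball_self hρ))
      exact ⟨L, fun _ => hL⟩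
    · exact ⟨0, fun h => absurd h ht⟩
  choose ψ' hψ' using hlim
  refine ⟨s, ψ', hs, ?_, hψ'⟩
  have hTL : TendstoLocallyUniformlyOn (fun k => ψ (s k)) ψ' atTop U := by
    refine tendstoLocallyUniformlyOn_of_forall_exists_nhds fun t ht => ?_
    obtain ⟨ρ, hρ, hρ2⟩ := hloc t ht
    refine ⟨ball t ρ ∩ U, inter_mem (mem_nhdsWithin_of_mem_nhds (ball_mem_nhds t hρ))
      self_mem_nhdsWithin, ?_⟩
    exact (hρ2.mono inter_subset_left).tendstoUniformlyOn_of_tendsto fun x hx => hψ' x hx.2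
  exact hTL.differentiableOn (Eventually.of_forall fun k => hd (s k)) hU

end FTP
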