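import Pool.Agent.MP_693ed2_an.FTP.K2
import Pool.Agent.MP_693ed2_an.FTP.MO

/-!
# FTP row K4: existence of half-plane solutions

Proof.  For `k : ℕ` take `ψ_k` from `K3` with `ε_k = 1/(k+2) ≤ 1/2` (choice).  `MO` on the open set `RH`
gives a subsequence `s` and the limit `ψ`.  Bounds: `‖ψ t‖ ≤ r` (`le_of_tendsto'`), `r/16 ≤ ‖ψ 1‖`
(`ge_of_tendsto'`), so `ψ 1 ≠ 0`.  Equation: for `t ∈ RH` also `t + 1 ∈ RH`;
`ψ_{s k} (t + 1) = exp (-ε_{s k}) • f (ψ_{s k} t)`; the left side tends to `ψ (t+1)`; `exp (-ε_{s k}) → 1` and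
`f (ψ_{s k} t) → f (ψ t)` since `f` is continuous at `ψ t` (`‖ψ t‖ ≤ r < 8 r`, `h.diff`, open ball);
uniqueness of limits.
-/

namespace FTP

open Metric Set Filter Topology

theorem K4 {n : ℕ} {f g : E n → E n} {r C : ℝ} (h : Grm f g r C) (hn : 0 < n) :
    ∃ ψ : ℂ → E n, HS f r ψ := by
  have hr := h.r_pos
  have hε : ∀ k : ℕ, (0 : ℝ) < 1 / ((k : ℝ) + 2) ∧ 1 / ((k : ℝ) + 2) ≤ 1 / 2 := by
    intro k
    have hk : (0 : ℝ) ≤ (k : ℝ) := Nat.cast_nonneg k
    refine ⟨by positivity, ?_⟩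
    rw [div_le_div_iff₀ (by positivity) (by norm_num)]
    linarith
  have hex : ∀ k : ℕ, ∃ ψ : ℂ → E n, DifferentiableOn ℂ ψ RH ∧ (∀ t ∈ RH, ‖ψ t‖ ≤ r) ∧
      (∀ t ∈ RH, ψ (t + 1) = (Real.exp (-(1 / ((k : ℝ) + 2))) : ℂ) • f (ψ t)) ∧ r / 16 ≤ ‖ψ 1‖ :=
    fun k => K3 h hn (hε k).1 (hε k).2
  choose ψ hd hb heq hlow using hex
  have hRH : IsOpen RH := isOpen_lt continuous_const Complex.continuous_re
  obtain ⟨s, ψ', hs, hd', hlim⟩ := MO hRH hd hb
  have h1 : (1 : ℂ) ∈ RH := by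
    show 0 < (1 : ℂ).re
    simp
  have hb' : ∀ t ∈ RH, ‖ψ' t‖ ≤ r := by
    intro t ht
    exact le_of_tendsto' (hlim t ht).norm (fun k => hb (s k) t ht)
  have hlow' : r / 16 ≤ ‖ψ' 1‖ :=
    ge_of_tendsto' (hlim 1 h1).norm (fun k => hlow (s k))
  refine ⟨ψ', ⟨hd', hb', ?_, ?_⟩⟩
  · intro t ht
    have ht1 : t + 1 ∈ RH := by
      have ht' : 0 < t.re := ht
      show 0 < (t + 1).re
      simp only [Complex.add_re, Complex.one_re]
      linarith
    have hA : Tendsto (fun k => ψ (s k) (t + 1)) atTop (𝓝 (ψ' (t + 1))) := hlim _ ht1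
    have hmem : ψ' t ∈ ball (0 : E n) (8 * r) := by
      rw [mem_ball_zero_iff]
      have := hb' t ht
      linarith
    have hcont : ContinuousAt f (ψ' t) :=
      (h.diff.differentiableAt (isOpen_ball.mem_nhds hmem)).continuousAt
    have hB : Tendsto (fun k => f (ψ (s k) t)) atTop (𝓝 (f (ψ' t))) :=
      hcont.tendsto.comp (hlim t ht)
    have hε0 : Tendsto (fun k : ℕ => (Real.exp (-(1 / ((s k : ℝ) + 2))) : ℂ)) atTop (𝓝 1) := by
      have e0 : Tendsto (fun m : ℕ => ((m : ℝ) + 2)) atTop atTop :=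
        tendsto_atTop_add_const_right _ _ tendsto_natCast_atTop_atTop
      have e1 : Tendsto (fun m : ℕ => -(1 / ((m : ℝ) + 2))) atTop (𝓝 (-0)) := by
        apply Tendsto.neg
        simp only [one_div]
        exact tendsto_inv_atTop_zero.comp e0
      rw [neg_zero] at e1
      have e2 : Tendsto (fun m : ℕ => Real.exp (-(1 / ((m : ℝ) + 2)))) atTop (𝓝 1) := by
        have := (Real.continuous_exp.tendsto 0).comp e1
        rw [Real.exp_zero] at this
        exact this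
      have e3 : Tendsto (fun m : ℕ => ((Real.exp (-(1 / ((m : ℝ) + 2))) : ℝ) : ℂ)) atTop
          (𝓝 ((1 : ℝ) : ℂ)) :=
        (Complex.continuous_ofReal.tendsto 1).comp e2
      rw [Complex.ofReal_one] at e3
      exact e3.comp hs.tendsto_atTop
    have hC : Tendsto (fun k => (Real.exp (-(1 / ((s k : ℝ) + 2))) : ℂ) • f (ψ (s k) t)) atTop
        (𝓝 ((1 : ℂ) • f (ψ' t))) := hε0.smul hB
    rw [one_smul] at hC
    have hE : (fun k => ψ (s k) (t + 1)) =
        fun k => (Real.exp (-(1 / ((s k : ℝ) + 2))) : ℂ) • f (ψ (s k) t) := by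
      funext k
      exact heq (s k) t ht
    rw [hE] at hA
    exact tendsto_nhds_unique hA hC
  · intro h0
    rw [h0, norm_zero] at hlow'
    linarith

end FTP
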