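import Pool.Agent.MP_693ed2_an.FTP.Defs

/-!
# FTP row K5: uniform decay of half-plane solutions

(The finished file `Pool/Agent/MP_693ed2_an/FTF/A9.lean`, attached in the archive, is the analogue for
vector fields and can be adapted.)
Proof.  If `Re w ≥ d > 0` then `closedBall w (d/2) ⊆ RH`, and Cauchy's estimate
(`Complex.norm_deriv_le_of_forall_mem_sphere_norm_le`) gives `‖deriv ψ w‖ ≤ r / (d/2) = 2 r / d`.  So for
`Re t ≥ d`: `‖ψ (t+1) - ψ t‖ ≤ 2 r / d` (mean value inequality on the convex set `{w | d ≤ Re w}`, or on the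
segment `[t, t+1]`), i.e. `‖f (ψ t) - ψ t‖ ≤ 2 r / d`.
If `ε > r` nothing to prove.  The set `A = {z | ε ≤ ‖z‖ ∧ ‖z‖ ≤ r}` is compact, `‖f z - z‖` is continuous and
positive on it (`h.diff`, `h.ne`); if `A` is empty nothing to prove, else it has a positive minimum `m`.
Take `D = 2 r / m + 1`: for `D < Re t =: d`: `‖f (ψ t) - ψ t‖ ≤ 2 r / d < m`, so `ψ t ∉ A`, i.e. `‖ψ t‖ < ε`.
-/

namespace FTP

open Metric Set Filter Topology

theorem K5 {n : ℕ} {f g : E n → E n} {r C : ℝ} (h : Grm f g r C) {ψ : ℂ → E n} (hψ : HS f r ψ)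
    {ε : ℝ} (hε : 0 < ε) : ∃ D : ℝ, 0 < D ∧ ∀ t : ℂ, D < t.re → ‖ψ t‖ < ε := by
  have hr := h.r_pos
  have hopen : IsOpen RH := isOpen_lt continuous_const Complex.continuous_re
  -- Cauchy estimate
  have hC : ∀ ζ : ℂ, ∀ d : ℝ, 0 < d → d ≤ ζ.re → ‖deriv ψ ζ‖ ≤ r / (d / 2) := by
    intro ζ d hd hdζ
    have hsub : closedBall ζ (d / 2) ⊆ RH := by
      intro w hw
      change 0 < w.re
      have h1 : w.re = ζ.re + (w - ζ).re := by
        rw [Complex.sub_re]
        ring
      have h2 : |(w - ζ).re| ≤ d / 2 := by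
        refine (Complex.abs_re_le_norm _).trans ?_
        rw [← dist_eq_norm]
        exact hw
      have h3 := (abs_le.1 h2).1
      linarith
    have hdiff : DiffContOnCl ℂ ψ (ball ζ (d / 2)) := by
      refine DifferentiableOn.diffContOnCl fun w hw => ?_
      have hw' := hsub (closure_ball_subset_closedBall hw)
      exact (hψ.diff.differentiableAt (hopen.mem_nhds hw')).differentiableWithinAt
    exact Complex.norm_deriv_le_of_forall_mem_sphere_norm_le (c := ζ) (R := d / 2) (C := r)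
      (by linarith) hdiff (fun w hw => hψ.bound w (hsub (sphere_subset_closedBall hw)))
  have hM : ∀ ζ : ℂ, ∀ d : ℝ, 0 < d → d ≤ ζ.re → ‖f (ψ ζ) - ψ ζ‖ ≤ r / (d / 2) := by
    intro ζ d hd hdζ
    have hζ : ζ ∈ RH := lt_of_lt_of_le hd hdζ
    have hconv : Convex ℝ {w : ℂ | d ≤ w.re} := convex_halfSpace_re_ge d
    have h1 := hconv.norm_image_sub_le_of_norm_deriv_le (f := ψ) (C := r / (d / 2)) (x := ζ)
      (y := ζ + 1)
      (fun w hw => hψ.diff.differentiableAt (hopen.mem_nhds (lt_of_lt_of_le hd hw)))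
      (fun w hw => hC w d hd hw) hdζ
      (by
        change d ≤ (ζ + 1).re
        rw [Complex.add_re, Complex.one_re]
        linarith)
    rw [hψ.eqn ζ hζ, add_sub_cancel_left, norm_one, mul_one] at h1
    exact h1
  set A : Set (E n) := closedBall 0 r ∩ {z | ε ≤ ‖z‖} with hA
  have hAc : IsCompact A :=
    (isCompact_closedBall 0 r).inter_right (isClosed_le continuous_const continuous_norm)
  have hAne : ∀ z ∈ A, f z - z ≠ 0 := by
    intro z hz
    have h1 := hz.1
    rw [mem_closedBall_zero_iff] at h1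
    exact sub_ne_zero.2 (h.ne z (lt_of_lt_of_le hε hz.2) h1)
  have hXc : ContinuousOn (fun z => ‖f z - z‖) A := by
    refine ((h.diff.continuousOn.mono ?_).sub continuousOn_id).norm
    intro z hz
    have h1 := hz.1
    rw [mem_closedBall_zero_iff] at h1
    rw [mem_ball_zero_iff]
    linarith
  rcases A.eq_empty_or_nonempty with hAe | hAn
  · refine ⟨1, one_pos, fun ζ hζ => ?_⟩
    have hζ' : ζ ∈ RH := by
      change 0 < ζ.re
      linarith
    by_contra hc
    rw [not_lt] at hc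
    have h1 : ψ ζ ∈ A := ⟨by rw [mem_closedBall_zero_iff]; exact hψ.bound ζ hζ', hc⟩
    rw [hAe] at h1
    exact h1
  · obtain ⟨z₀, hz₀, hmin⟩ := hAc.exists_isMinOn hAn hXc
    set m : ℝ := ‖f z₀ - z₀‖ with hm
    have hm0 : 0 < m := norm_pos_iff.2 (hAne z₀ hz₀)
    refine ⟨2 * r / m + 1, by positivity, fun ζ hζ => ?_⟩
    have hζ' : ζ ∈ RH := by
      change 0 < ζ.re
      have : 0 < 2 * r / m + 1 := by positivity
      linarith
    by_contra hc
    rw [not_lt] at hc
    have h1 : ψ ζ ∈ A := ⟨by rw [mem_closedBall_zero_iff]; exact hψ.bound ζ hζ', hc⟩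
    have h2 : m ≤ ‖f (ψ ζ) - ψ ζ‖ := hmin h1
    have h3 := hM ζ (2 * r / m + 1) (by positivity) hζ.le
    have h4 : r / ((2 * r / m + 1) / 2) < m := by
      rw [div_lt_iff₀ (by positivity)]
      have h5 : m * ((2 * r / m + 1) / 2) = r + m / 2 := by
        field_simp
      rw [h5]
      linarith
    linarith

end FTP
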