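import Pool.Agent.MP_693ed2_an.FTP.Defs

/-!
# FTP row MOa: Montel, part 1: a pointwise convergent subsequence on a countable set; Lipschitz estimate

Proof of `MOa`: Let `s = Set.univ.pi (fun _ : Q => closedBall (0 : E n) r)` in `Q → E n` (product topology).
It is compact (`isCompact_univ_pi`, `isCompact_closedBall`).  As `Q` is countable, `Q → E n` is first
countable (metrizable), so `IsCompact.tendsto_subseq` applies to `x k = fun q => ψ k q ∈ s`; the limit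
converges coordinatewise (`tendsto_pi_nhds`).

Proof of `MOl`: for `t, t' ∈ ball t₀ ρ`: on `ball t₀ ρ` the derivative of `ψ` is bounded by `r / ρ`: for
`w ∈ ball t₀ ρ`, `closedBall w ρ ⊆ ball t₀ (2ρ) ∪ ... ⊆ closedBall t₀ (2 ρ) ⊆ U`, Cauchy's estimate
(`Complex.norm_deriv_le_of_forall_mem_sphere_norm_le`).  Then the mean value inequality on the convex set
`ball t₀ ρ` (`Convex.norm_image_sub_le_of_norm_deriv_le` or `..._hasDerivWithin_le`).
-/

namespace FTP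

open Metric Set Filter Topology

theorem MOa {n : ℕ} {Q : Set ℂ} (hQ : Q.Countable) {r : ℝ} {ψ : ℕ → ℂ → E n}
    (hb : ∀ k, ∀ t ∈ Q, ‖ψ k t‖ ≤ r) :
    ∃ s : ℕ → ℕ, StrictMono s ∧ ∀ t ∈ Q, ∃ L : E n, Tendsto (fun k => ψ (s k) t) atTop (𝓝 L) := by
  have : Countable Q := hQ.to_subtype
  have hK : IsCompact (Set.univ.pi fun _ : Q => closedBall (0 : E n) r) :=
    isCompact_univ_pi fun _ => isCompact_closedBall _ _
  have hx : ∀ k : ℕ, (fun q : Q => ψ k q) ∈ Set.univ.pi fun _ : Q => closedBall (0 : E n) r := by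
    intro k q _
    show ψ k q ∈ closedBall (0 : E n) r
    rw [mem_closedBall_zero_iff]
    exact hb k q q.2
  obtain ⟨a, -, s, hs, hlim⟩ := hK.tendsto_subseq hx
  refine ⟨s, hs, fun t ht => ⟨a ⟨t, ht⟩, ?_⟩⟩
  exact (tendsto_pi_nhds.1 hlim) ⟨t, ht⟩

theorem MOl {n : ℕ} {U : Set ℂ} {r : ℝ} {ψ : ℂ → E n} (hd : DifferentiableOn ℂ ψ U)
    (hb : ∀ t ∈ U, ‖ψ t‖ ≤ r) {t₀ : ℂ} {ρ : ℝ} (hρ : 0 < ρ) (hsub : closedBall t₀ (2 * ρ) ⊆ U)
    {t t' : ℂ} (ht : t ∈ ball t₀ ρ) (ht' : t' ∈ ball t₀ ρ) : ‖ψ t - ψ t'‖ ≤ r / ρ * ‖t - t'‖ := by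
  have hball : ∀ w ∈ ball t₀ ρ, closedBall w ρ ⊆ U := by
    intro w hw x hx
    apply hsub
    rw [mem_closedBall] at hx ⊢
    rw [mem_ball] at hw
    linarith [dist_triangle x w t₀]
  have hdiff : ∀ w ∈ ball t₀ ρ, DifferentiableAt ℂ ψ w := by
    intro w hw
    exact hd.differentiableAt (mem_of_superset (closedBall_mem_nhds w hρ) (hball w hw))
  have hder : ∀ w ∈ ball t₀ ρ, ‖deriv ψ w‖ ≤ r / ρ := by
    intro w hw
    refine Complex.norm_deriv_le_of_forall_mem_sphere_norm_le hρ (hd.diffContOnCl_ball (hball w hw))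
      fun z hz => hb z (hball w hw (sphere_subset_closedBall hz))
  exact (convex_ball t₀ ρ).norm_image_sub_le_of_norm_deriv_le hdiff hder ht' ht

end FTP
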