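import Pool.Agent.MP_693ed2_an.FTP.P0
import Pool.Agent.MP_693ed2_an.FTP.K4
import Pool.Agent.MP_693ed2_an.FTP.B5
import Pool.Agent.MP_693ed2_an.FTP.D4

/-!
# FTP: assembly
-/

namespace FTP

open Metric Set Filter Topology

theorem iter_eq {n : ℕ} {f : E n → E n} {r : ℝ} {ψ : ℂ → E n} (hψ : HS f r ψ) (k : ℕ) :
    ∀ t ∈ RH, f^[k] (ψ t) = ψ (t + k) := by
  induction k with
  | zero => intro t _; simp
  | succ k ih =>
    intro t ht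
    rw [Function.iterate_succ_apply', ih t ht, ← hψ.eqn (t + k)]
    · congr 1; push_cast; ring
    · show 0 < (t + (k : ℂ)).re
      have h1 : (t + (k : ℂ)).re = t.re + k := by simp
      rw [h1]
      have h2 : 0 < t.re := ht
      positivity

theorem curves {n : ℕ} {f g : E n → E n} {r C : ℝ} (h : Grm f g r C) {ψ : ℂ → E n} (hψ : HS f r ψ)
    {m : ℕ} (hm : 0 < m) {δ : ℝ} (hδ : 0 < δ) (hδ1 : δ ≤ 1 / 2) :
    InjOn (fun ζ => ψ (W m ζ)) (D m δ) ∧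
      ∀ x ∈ D m δ, ParabolicCurve f (connectedComponentIn (D m δ) x) fun ζ => ψ (W m ζ) := by
  obtain ⟨hDo, hWd, hWi, -, hWt, hWs⟩ := W_all hm hδ
  have hRH : ∀ ζ ∈ D m δ, W m ζ ∈ RH := fun ζ hζ => W_re hm hδ1 hζ
  have hinj : InjOn (fun ζ => ψ (W m ζ)) (D m δ) := by
    intro a ha b hb hab
    exact hWi ha hb (B5 h hψ (hRH a ha) (hRH b hb) hab)
  refine ⟨hinj, fun x hx => ?_⟩
  have hsub : connectedComponentIn (D m δ) x ⊆ D m δ := connectedComponentIn_subset _ _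
  have hRHo : IsOpen RH := isOpen_lt continuous_const Complex.continuous_re
  refine ⟨hDo.connectedComponentIn, comp_simply hm hδ hx, comp_frontier hm hδ hx, ?_, hinj.mono hsub,
    fun ζ hζ => B3a h hψ _ (hRH ζ (hsub hζ)), ?_, ?_, ?_⟩
  · intro ζ hζ
    have h1 := (hψ.diff _ (hRH ζ (hsub hζ))).differentiableAt (hRHo.mem_nhds (hRH ζ (hsub hζ)))
    exact h1.comp_differentiableWithinAt ζ ((hWd ζ (hsub hζ)).mono hsub)
  · rw [Metric.tendsto_nhds]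
    intro ε hε
    obtain ⟨D₁, -, hD₁⟩ := K5 h hψ hε
    have h1 := (hWt.mono_left (nhdsWithin_mono _ hsub)).eventually_gt_atTop D₁
    filter_upwards [h1] with ζ h2
    rw [dist_zero_right]
    exact hD₁ _ h2
  · rintro _ ⟨ζ, hζ, rfl⟩
    obtain ⟨ζ', h1, h2⟩ := hWs x hx ζ hζ
    refine ⟨ζ', h1, ?_⟩
    show ψ (W m ζ') = f (ψ (W m ζ))
    rw [h2, hψ.eqn _ (hRH ζ (hsub hζ))]
  · rw [Metric.tendstoUniformlyOn_iff]
    intro ε hε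
    obtain ⟨D₁, -, hD₁⟩ := K5 h hψ hε
    obtain ⟨N, hN⟩ := exists_nat_gt D₁
    filter_upwards [eventually_ge_atTop N] with k hk
    rintro _ ⟨ζ, hζ, rfl⟩
    rw [dist_zero_left]
    show ‖f^[k] (ψ (W m ζ))‖ < ε
    rw [iter_eq hψ k _ (hRH ζ (hsub hζ))]
    apply hD₁
    have h1 : (W m ζ + (k : ℂ)).re = (W m ζ).re + k := by simp
    rw [h1]
    have h2 : 0 < (W m ζ).re := hRH ζ (hsub hζ)
    have h3 : (N : ℝ) ≤ k := by exact_mod_cast hk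
    linarith

/-- half-plane solutions with small values -/
theorem exists_small {n : ℕ} (hn : 0 < n) {f g : E n → E n} {r C : ℝ} (h : Grm f g r C) {ε : ℝ} (hε : 0 < ε) :
    ∃ ψ : ℂ → E n, HS f r ψ ∧ ∀ t ∈ RH, ‖ψ t‖ < ε := by
  obtain ⟨ψ, hψ⟩ := K4 h hn
  obtain ⟨T, hT, hT'⟩ := K5 h hψ hε
  have h1 : ∀ t ∈ RH, t + (T : ℂ) ∈ RH := fun t ht => by
    have ht' : 0 < t.re := ht
    show 0 < (t + (T : ℂ)).re
    rw [Complex.add_re, Complex.ofReal_re]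
    linarith
  refine ⟨fun t => ψ (t + T), ⟨?_, fun t ht => hψ.bound _ (h1 t ht), fun t ht => ?_, ?_⟩, fun t ht => hT' _ ?_⟩
  · exact hψ.diff.comp (differentiable_id.add_const _).differentiableOn h1
  · show ψ (t + 1 + T) = f (ψ (t + T))
    rw [← hψ.eqn _ (h1 t ht), add_right_comm]
  · exact B3a h hψ _ (h1 1 (by show 0 < (1 : ℂ).re; norm_num))
  · have ht' : 0 < t.re := ht
    rw [Complex.add_re, Complex.ofReal_re]
    linarith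

theorem main {n : ℕ} (hn : 0 < n) {f : E n → E n} (hf : AnalyticAt ℂ f 0) (h0 : f 0 = 0)
    (h1 : fderiv ℂ f 0 = ContinuousLinearMap.id ℂ (E n)) (hiso : ∀ᶠ z in 𝓝[≠] (0 : E n), f z ≠ z)
    {ε : ℝ} (hε : 0 < ε) :
    (∃ ψ : ℂ → E n, DifferentiableOn ℂ ψ {t | 0 < t.re} ∧
      (∀ t : ℂ, 0 < t.re → ψ t ≠ 0 ∧ ‖ψ t‖ < ε ∧ f (ψ t) = ψ (t + 1)) ∧
      InjOn ψ {t | 0 < t.re} ∧ Tendsto ψ (comap Complex.re atTop) (𝓝 0)) ∧
    ∀ m : ℕ, 0 < m → ∀ δ : ℝ, 0 < δ → δ ≤ 1 / 2 → ∃ Φ : ℂ → E n, InjOn Φ (D m δ) ∧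
      (∀ x ∈ D m δ, ‖Φ x‖ < ε) ∧ ∀ x ∈ D m δ, ParabolicCurve f (connectedComponentIn (D m δ) x) Φ := by
  obtain ⟨g, r, C, h⟩ := P0 hf h0 h1 hiso
  obtain ⟨ψ, hψ, hψε⟩ := exists_small hn h hε
  refine ⟨⟨ψ, hψ.diff, fun t ht => ⟨B3a h hψ t ht, hψε t ht, (hψ.eqn t ht).symm⟩, B5 h hψ, ?_⟩, ?_⟩
  · rw [Metric.tendsto_nhds]
    intro ε' hε'
    obtain ⟨D₁, hD₁, hD₂⟩ := K5 h hψ hε'
    rw [Filter.eventually_comap]
    filter_upwards [eventually_gt_atTop D₁] with y hy ζ hζ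
    rw [dist_zero_right]
    exact hD₂ _ (by rw [hζ]; exact hy)
  · intro m hm δ hδ hδ1
    obtain ⟨h2, h3⟩ := curves h hψ hm hδ hδ1
    exact ⟨_, h2, fun x hx => hψε _ (W_re hm hδ1 hx), h3⟩

end FTP
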