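import Pool.Agent.MP_693ed2_an.FTP.Defs

/-!
# FTP row P0: the standing assumptions hold for every germ tangent to the identity

Proof.  Put `F z = f z - z`; `F` is analytic at `0`, `F 0 = 0`, `fderiv F 0 = 0`.
(1) Lipschitz estimate: `fderiv ℂ f` is analytic at `0`, hence `x ↦ fderiv ℂ F x` is Lipschitz near `0` and
vanishes at `0`: there are `C, R > 0` with `‖fderiv ℂ F x‖ ≤ C ‖x‖` for `‖x‖ < R`, and `f` differentiable
there.  On `ball 0 ρ` (`ρ ≤ R`) the mean value inequality gives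
`‖F z - F w‖ ≤ C ρ ‖z - w‖`.  (The finished file `Pool/Agent/MP_693ed2_an/FTF/G0.lean`, attached in the
archive, proves exactly this (`G0`, `Quad`) for a vector field `X` with `X 0 = 0`, `fderiv X 0 = 0`: apply
its proof to `X = F`.)
(2) `quad`: `‖F z‖ ≤ C ‖z‖^2`: by `‖fderiv F x‖ ≤ C ‖x‖ ≤ C ‖z‖` on `closedBall 0 ‖z‖`
(mean value inequality between `0` and `z`).
(3) Inverse: `f` has the strict derivative `id` at `0` (`AnalyticAt.hasStrictFDerivAt`), so
`HasStrictFDerivAt.toOpenPartialHomeomorph` (with `ContinuousLinearEquiv.refl`) and `localInverse` give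
`g` with `g (f z) = z` for `z` near `0`, `f (g w) = w` for `w` near `0`, `g` continuous at `0`, `g 0 = 0`.
`g` is differentiable near `0`: `HasStrictFDerivAt.to_localInverse`/`OpenPartialHomeomorph.hasFDerivAt_symm`,
or `AnalyticAt` inverse function theorem (`OpenPartialHomeomorph.analyticAt_symm`...), or
`ContDiffAt.to_localInverse` (then `ContDiffAt ℂ 1 g 0` gives differentiability near `0`,
`ContDiffAt.eventually`, `ContDiffAt.differentiableAt`).
(4) Choose `r > 0` so small that everything holds: `8 r ≤ R`, `8 C r ≤ 1/4`, `f z ≠ z` for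
`0 < ‖z‖ ≤ r`, `g (f z) = z` for `‖z‖ ≤ r`, and `f (g w) = w`, `g` differentiable at `w`, for `‖w‖ < 4 r`.
Finally `‖g w‖ < 8 r` for `‖w‖ < 4 r`: choose first `R' ≤ R` with `C R' ≤ 1/4` and demand also
`‖g w‖ < R'` for `‖w‖ < 4 r` (continuity of `g` at `0`); then with `x = g w`:
`‖x‖ ≤ ‖f x‖ + ‖F x‖ ≤ ‖w‖ + (1/4) ‖x‖`, so `‖x‖ ≤ (4/3) ‖w‖ < 8 r`.
-/

namespace FTP

open Metric Set Filter Topology

/-- estimates for `f z - z` -/
theorem P0_est {n : ℕ} {f : E n → E n} (hf : AnalyticAt ℂ f 0) (h0 : f 0 = 0)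
    (h1 : fderiv ℂ f 0 = ContinuousLinearMap.id ℂ (E n)) :
    ∃ r₁ C : ℝ, 0 < r₁ ∧ 0 < C ∧ (∀ z ∈ ball (0 : E n) r₁, DifferentiableAt ℂ f z) ∧
      (∀ z ∈ ball (0 : E n) r₁, ‖f z - z‖ ≤ C * ‖z‖ ^ 2) ∧
      ∀ ρ : ℝ, 0 < ρ → ρ ≤ r₁ → ∀ z ∈ ball (0 : E n) ρ, ∀ w ∈ ball (0 : E n) ρ,
        ‖(f z - z) - (f w - w)‖ ≤ C * ρ * ‖z - w‖ := by
  obtain ⟨ρ₀, hρ₀, hρ₀2⟩ := hf.exists_ball_analyticOnNhd
  have hd : DifferentiableAt ℂ (fderiv ℂ f) 0 := hf.fderiv.differentiableAt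
  obtain ⟨C, hC, hCO⟩ := hd.hasFDerivAt.isBigO_sub.exists_pos
  obtain ⟨δ, hδ, hδ2⟩ := Metric.eventually_nhds_iff.1 hCO.bound
  obtain ⟨r₁, hr₁⟩ : ∃ r₁, r₁ = min δ ρ₀ := ⟨_, rfl⟩
  have hr0 : 0 < r₁ := by
    rw [hr₁]
    exact lt_min hδ hρ₀
  have hrδ : r₁ ≤ δ := by
    rw [hr₁]
    exact min_le_left _ _
  have hrρ : r₁ ≤ ρ₀ := by
    rw [hr₁]
    exact min_le_right _ _
  have hdf : ∀ z ∈ ball (0 : E n) r₁, DifferentiableAt ℂ f z := fun z hz =>
    (hρ₀2 z (ball_subset_ball hrρ hz)).differentiableAt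
  have hdiff : ∀ z ∈ ball (0 : E n) r₁, DifferentiableAt ℂ (fun z => f z - z) z := fun z hz =>
    (hdf z hz).sub differentiableAt_id
  have hbd : ∀ x ∈ ball (0 : E n) r₁, ‖fderiv ℂ (fun z => f z - z) x‖ ≤ C * ‖x‖ := by
    intro x hx
    have e1 : fderiv ℂ (fun z => f z - z) x = fderiv ℂ f x - ContinuousLinearMap.id ℂ (E n) := by
      rw [fderiv_fun_sub (hdf x hx) differentiableAt_fun_id, fderiv_fun_id]
    have hxr : x ∈ ball (0 : E n) δ := ball_subset_ball hrδ hx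
    have h2 := hδ2 hxr
    rw [h1, sub_zero] at h2
    rw [e1]
    exact h2
  refine ⟨r₁, C, hr0, hC, hdf, ?_, ?_⟩
  · intro z hz
    rw [mem_ball_zero_iff] at hz
    have hsub : closedBall (0 : E n) ‖z‖ ⊆ ball 0 r₁ := closedBall_subset_ball hz
    have h2 := (convex_closedBall (0 : E n) ‖z‖).norm_image_sub_le_of_norm_fderiv_le (𝕜 := ℂ)
      (f := fun z => f z - z) (C := C * ‖z‖) (fun x hx => hdiff x (hsub hx)) (fun x hx => by
        refine (hbd x (hsub hx)).trans (mul_le_mul_of_nonneg_left ?_ hC.le)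
        rwa [mem_closedBall_zero_iff] at hx)
      (mem_closedBall_self (norm_nonneg z)) (y := z) (by rw [mem_closedBall_zero_iff])
    simp only [h0, sub_zero] at h2
    calc ‖f z - z‖ ≤ C * ‖z‖ * ‖z‖ := h2
      _ = C * ‖z‖ ^ 2 := by ring
  · intro ρ hρ hρr z hz w hw
    refine (convex_ball (0 : E n) ρ).norm_image_sub_le_of_norm_fderiv_le (𝕜 := ℂ)
      (f := fun z => f z - z) (fun x hx => hdiff x (ball_subset_ball hρr hx)) ?_ hw hz
    intro x hx
    have h2 := hbd x (ball_subset_ball hρr hx)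
    rw [mem_ball_zero_iff] at hx
    exact h2.trans (mul_le_mul_of_nonneg_left hx.le hC.le)

/-- the local inverse -/
theorem P0_inv {n : ℕ} {f : E n → E n} (hf : AnalyticAt ℂ f 0) (h0 : f 0 = 0)
    (h1 : fderiv ℂ f 0 = ContinuousLinearMap.id ℂ (E n)) :
    ∃ g : E n → E n, ∀ R' : ℝ, 0 < R' → ∀ᶠ w in 𝓝 (0 : E n), g (f w) = w ∧ f (g w) = w ∧
      DifferentiableAt ℂ g w ∧ ‖g w‖ < R' := by
  have hcd : ContDiffAt ℂ 1 f 0 := hf.contDiffAt
  have hf' : HasFDerivAt f ((ContinuousLinearEquiv.refl ℂ (E n) : E n ≃L[ℂ] E n) : E n →L[ℂ] E n) 0 := by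
    have h2 := hf.differentiableAt.hasFDerivAt
    rw [h1] at h2
    exact h2
  have hs := hcd.hasStrictFDerivAt' hf' one_ne_zero
  refine ⟨hs.localInverse f (ContinuousLinearEquiv.refl ℂ (E n)) 0, fun R' hR' => ?_⟩
  have e1 := hs.eventually_left_inverse
  have e2 := hs.eventually_right_inverse
  have e3 : ContDiffAt ℂ 1 (hs.localInverse f (ContinuousLinearEquiv.refl ℂ (E n)) 0) (f 0) :=
    hcd.to_localInverse hf' one_ne_zero
  have e4 := hs.localInverse_continuousAt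
  have e5 := hs.localInverse_apply_image
  rw [h0] at e2 e3 e4 e5
  have e6 := e3.eventually (by simp)
  have e7 : ∀ᶠ w in 𝓝 (0 : E n),
      hs.localInverse f (ContinuousLinearEquiv.refl ℂ (E n)) 0 w ∈ ball (0 : E n) R' := by
    apply e4
    rw [e5]
    exact ball_mem_nhds _ hR'
  filter_upwards [e1, e2, e6, e7] with w w1 w2 w3 w4
  exact ⟨w1, w2, w3.differentiableAt one_ne_zero, mem_ball_zero_iff.1 w4⟩

theorem P0 {n : ℕ} {f : E n → E n} (hf : AnalyticAt ℂ f 0) (h0 : f 0 = 0)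
    (h1 : fderiv ℂ f 0 = ContinuousLinearMap.id ℂ (E n)) (hiso : ∀ᶠ z in 𝓝[≠] (0 : E n), f z ≠ z) :
    ∃ (g : E n → E n) (r C : ℝ), Grm f g r C := by
  obtain ⟨r₁, C, hr1, hC, hdf, hquad, hlip⟩ := P0_est hf h0 h1
  obtain ⟨g, hg⟩ := P0_inv hf h0 h1
  obtain ⟨γ, hγ, hγ2⟩ := Metric.eventually_nhds_iff.1 (eventually_nhdsWithin_iff.1 hiso)
  obtain ⟨R', hR'⟩ : ∃ R', R' = min r₁ (min γ (1 / (4 * C))) := ⟨_, rfl⟩
  have hR0 : 0 < R' := by
    rw [hR']
    exact lt_min hr1 (lt_min hγ (by positivity))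
  have hRr : R' ≤ r₁ := by
    rw [hR']
    exact min_le_left _ _
  have hRγ : R' ≤ γ := by
    rw [hR']
    exact (min_le_right _ _).trans (min_le_left _ _)
  have hRC : C * R' ≤ 1 / 4 := by
    have h2 : R' ≤ 1 / (4 * C) := by
      rw [hR']
      exact (min_le_right _ _).trans (min_le_right _ _)
    rw [le_div_iff₀ (by positivity)] at h2
    linarith
  obtain ⟨ε, hε, hε2⟩ := Metric.eventually_nhds_iff.1 (hg R' hR0)
  obtain ⟨r, hr⟩ : ∃ r, r = min (R' / 8) (ε / 8) := ⟨_, rfl⟩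
  have hr0 : 0 < r := by
    rw [hr]
    exact lt_min (by positivity) (by positivity)
  have hrR : 8 * r ≤ R' := by
    have : r ≤ R' / 8 := by
      rw [hr]
      exact min_le_left _ _
    linarith
  have hrε : 8 * r ≤ ε := by
    have : r ≤ ε / 8 := by
      rw [hr]
      exact min_le_right _ _
    linarith
  have hε3 : ∀ w : E n, ‖w‖ < ε → g (f w) = w ∧ f (g w) = w ∧ DifferentiableAt ℂ g w ∧ ‖g w‖ < R' :=
    fun w hw => hε2 (by rwa [dist_zero_right])
  refine ⟨g, r, C, hr0, hC, ?_, ?_, h0, ?_, ?_, ?_, ?_, ?_, ?_⟩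
  · exact (mul_le_mul_of_nonneg_left hrR hC.le).trans hRC
  · intro z hz
    exact (hdf z (ball_subset_ball (hrR.trans hRr) hz)).differentiableWithinAt
  · intro z hz
    exact hquad z (ball_subset_ball (hrR.trans hRr) hz)
  · intro ρ hρ hρ8
    exact hlip ρ hρ (hρ8.trans (hrR.trans hRr))
  · intro z hz hzr
    refine hγ2 ?_ ?_
    · rw [dist_zero_right]
      linarith
    · intro h
      rw [mem_singleton_iff] at h
      rw [h, norm_zero] at hz
      exact lt_irrefl _ hz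
  · intro w hw
    rw [mem_ball_zero_iff] at hw
    exact (hε3 w (by linarith)).2.2.1.differentiableWithinAt
  · intro z hz
    exact (hε3 z (by linarith)).1
  · intro w hw
    rw [mem_ball_zero_iff] at hw
    obtain ⟨-, h3, -, h4⟩ := hε3 w (by linarith)
    refine ⟨?_, h3⟩
    have h5 := hquad (g w) (by rw [mem_ball_zero_iff]; linarith)
    rw [h3] at h5
    have h6 : ‖g w‖ ≤ ‖w‖ + ‖w - g w‖ := by
      calc ‖g w‖ = ‖w - (w - g w)‖ := by rw [sub_sub_cancel]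
        _ ≤ _ := norm_sub_le _ _
    have h7 : C * ‖g w‖ ^ 2 ≤ 1 / 4 * ‖g w‖ := by
      have h8 : C * ‖g w‖ ≤ 1 / 4 := (mul_le_mul_of_nonneg_left h4.le hC.le).trans hRC
      have h9 := mul_le_mul_of_nonneg_right h8 (norm_nonneg (g w))
      calc C * ‖g w‖ ^ 2 = C * ‖g w‖ * ‖g w‖ := by ring
        _ ≤ _ := h9
    linarith

end FTP
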